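import Pool.Agent.H38Pav.Mat

/-!
MP_039b14_co: isomorphism classes; a class of non-paving matroids is coded by the class of a sparse
paving matroid and a union of cliques.
-/

namespace H38Pav

open Finset

variable {n : ℕ}

/-- relabelling -/
def act (σ : Equiv.Perm (Fin n)) (M : Mat n) : Mat n :=
  ⟨M.1.mapEquiv σ, by rw [Matroid.mapEquiv_ground_eq, M.2]; simp⟩

theorem act_isBase (σ : Equiv.Perm (Fin n)) (M : Mat n) (B : Set (Fin n)) :
    (act σ M).1.IsBase (σ '' B) ↔ M.1.IsBase B := by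
  show (M.1.mapEquiv σ).IsBase (σ '' B) ↔ M.1.IsBase B
  rw [Matroid.mapEquiv_isBase_iff, ← Set.image_comp]
  simp

theorem cls_eq {M N : Mat n} : cls M = cls N ↔ Isom M.1 N.1 := by
  exact Quotient.eq (r := isomSetoid n)

theorem cls_act (σ : Equiv.Perm (Fin n)) (M : Mat n) : cls (act σ M) = cls M := by
  rw [cls_eq]
  exact Isom.symm ⟨σ, fun B => (act_isBase σ M B).symm⟩

theorem rk_of_isom {M N : Mat n} (h : Isom M.1 N.1) : rk M = rk N := by
  unfold rk; rw [h.eRank_eq]

theorem rk_of_cls {M N : Mat n} (h : cls M = cls N) : rk M = rk N := rk_of_isom (cls_eq.mp h)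

theorem rk_act (σ : Equiv.Perm (Fin n)) (M : Mat n) : rk (act σ M) = rk M :=
  rk_of_cls (cls_act σ M)

/-- relabelling of families -/
def sh (σ : Equiv.Perm (Fin n)) (S : Finset (Finset (Fin n))) : Finset (Finset (Fin n)) :=
  S.image (fun X => X.image σ)

theorem image_perm_injective (σ : Equiv.Perm (Fin n)) :
    Function.Injective (fun X : Finset (Fin n) => X.image σ) :=
  Finset.image_injective σ.injective

theorem mem_sh {σ : Equiv.Perm (Fin n)} {S : Finset (Finset (Fin n))} {X : Finset (Fin n)} :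
    X.image σ ∈ sh σ S ↔ X ∈ S := by
  unfold sh
  constructor
  · intro h
    obtain ⟨Y, hY, h1⟩ := Finset.mem_image.mp h
    rw [← image_perm_injective σ h1]; exact hY
  · intro h; exact Finset.mem_image.mpr ⟨X, h, rfl⟩

theorem exists_image (σ : Equiv.Perm (Fin n)) (Y : Finset (Fin n)) :
    ∃ X : Finset (Fin n), X.image σ = Y := by
  refine ⟨Y.image σ.symm, ?_⟩
  rw [Finset.image_image]
  simp

theorem NB_act (σ : Equiv.Perm (Fin n)) (M : Mat n) : NB (act σ M) = sh σ (NB M) := by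
  ext Y
  obtain ⟨X, rfl⟩ := exists_image σ Y
  rw [mem_sh, mem_NB, mem_NB, rk_act, Finset.card_image_of_injective _ σ.injective,
    Finset.coe_image, act_isBase]

theorem act_of_isom {M N : Mat n} (h : Isom M.1 N.1) : ∃ σ, N = act σ M := by
  obtain ⟨σ, hσ⟩ := h
  refine ⟨σ, ?_⟩
  apply Subtype.ext
  refine Matroid.ext_isBase (by rw [N.2, (act σ M).2]) (fun B _ => ?_)
  have hB : σ '' (σ.symm '' B) = B := by rw [← Set.image_comp]; simp
  rw [← hB, act_isBase, ← hσ]

theorem card_sh (σ : Equiv.Perm (Fin n)) (S : Finset (Finset (Fin n))) :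
    (sh σ S).card = S.card :=
  Finset.card_image_of_injective _ (image_perm_injective σ)

theorem isoP_sh (r : ℕ) (σ : Equiv.Perm (Fin n)) (S : Finset (Finset (Fin n))) :
    isoP r (sh σ S) = sh σ (isoP r S) := by
  ext Y
  obtain ⟨X, rfl⟩ := exists_image σ Y
  rw [mem_sh]
  unfold isoP
  rw [Finset.mem_filter, Finset.mem_filter, mem_sh]
  refine and_congr_right (fun _ => ?_)
  constructor
  · intro h Z hZ
    have := h (Z.image σ) (mem_sh.mpr hZ)
    rwa [← Finset.image_inter _ _ σ.injective, Finset.card_image_of_injective _ σ.injective]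
      at this
  · intro h Z' hZ
    obtain ⟨Z, rfl⟩ := exists_image σ Z'
    rw [← Finset.image_inter _ _ σ.injective, Finset.card_image_of_injective _ σ.injective]
    exact h Z (mem_sh.mp hZ)

/-- a representative of a class -/
noncomputable def rep (c : Cls n) : Mat n := Quotient.out c

theorem cls_rep (c : Cls n) : cls (rep c) = c := Quotient.out_eq c

noncomputable def Cls.rk (c : Cls n) : ℕ := H38Pav.rk (rep c)

theorem rk_cls (M : Mat n) : (cls M).rk = rk M := rk_of_cls (cls_rep _)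

theorem nb_cls (M : Mat n) : (cls M).nb = (NB M).card := nonbases_eq M

theorem nb_rep (c : Cls n) : c.nb = (NB (rep c)).card := by
  conv_lhs => rw [← cls_rep c]
  exact nb_cls _

/-- the decomposition of a non-paving class -/
theorem exists_decomp (c : Cls n) (hc : c.NonPaving) (hr : 1 ≤ c.rk) (hrn : c.rk + 1 ≤ n) :
    ∃ p : Cls n × Finset (Finset (Fin n)), p.1.rk = c.rk ∧ p.2 ∈ unions (cliques n c.rk) ∧
      c.nb = p.1.nb + p.2.card ∧
      ∃ M : Mat n, cls M = c ∧ rk M = rk (rep p.1) ∧ NB M = NB (rep p.1) ∪ p.2 := by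
  classical
  obtain ⟨M, hM, hnp⟩ := hc
  have hrk : rk M = c.rk := by rw [← hM, rk_cls]
  rw [← hrk] at hr hrn ⊢
  -- the sparse paving part
  obtain ⟨B, hB⟩ := M.1.exists_isBase
  have hBf : ((Set.toFinite B).toFinset : Set (Fin n)) = B := Set.Finite.coe_toFinset _
  rw [← hBf, isBase_iff] at hB
  obtain ⟨P, hP1, hP2⟩ := exists_SP (rk M) (isoP (rk M) (NB M))
    (fun X hX => (mem_NB.mp (isoP_subset _ _ hX)).1)
    (fun X hX Y hY => (Finset.mem_filter.mp hX).2 Y (isoP_subset _ _ hY))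
    _ hB.1 (fun h => hB.2 (isoP_subset _ _ h))
  obtain ⟨σ, hσ⟩ := act_of_isom (cls_eq.mp (cls_rep (cls P)).symm)
  have hN1 : NB (rep (cls P)) = sh σ (isoP (rk M) (NB M)) := by rw [hσ, NB_act, hP2]
  have hN2 : NB (act σ M) = sh σ (NB M) := NB_act σ M
  have hK : NB (act σ M) \ isoP (rk (act σ M)) (NB (act σ M)) =
      sh σ (NB M) \ sh σ (isoP (rk M) (NB M)) := by
    rw [rk_act, hN2, isoP_sh]
  have hK2 : sh σ (NB M) \ sh σ (isoP (rk M) (NB M)) = sh σ (NB M \ isoP (rk M) (NB M)) := by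
    ext Y
    obtain ⟨X, rfl⟩ := exists_image σ Y
    rw [Finset.mem_sdiff, mem_sh, mem_sh, mem_sh, Finset.mem_sdiff]
  refine ⟨(cls P, sh σ (NB M) \ sh σ (isoP (rk M) (NB M))), ?_, ?_, ?_, act σ M, ?_, ?_, ?_⟩
  · rw [rk_cls, hP1]
  · show sh σ (NB M) \ sh σ (isoP (rk M) (NB M)) ∈ unions (cliques n (rk M))
    rw [← hK]
    have h1 := sdiff_isoP_mem (act σ M) (by rw [rk_act]; exact hr) (by rw [rk_act]; exact hrn) ?_
    · rw [rk_act] at h1 ⊢
      exact h1
    · rw [hK, hK2]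
      obtain ⟨X, hX⟩ := sdiff_isoP_nonempty M hr hrn hnp
      exact ⟨X.image σ, mem_sh.mpr hX⟩
  · show c.nb = (cls P).nb + (sh σ (NB M) \ sh σ (isoP (rk M) (NB M))).card
    rw [hK2, card_sh, ← hM, nb_cls, nb_cls, hP2]
    have := Finset.card_sdiff_add_card_eq_card (isoP_subset (rk M) (NB M))
    omega
  · rw [cls_act, hM]
  · rw [rk_act]
    show rk M = rk (rep (cls P))
    rw [rk_of_cls (cls_rep (cls P)), hP1]
  · show NB (act σ M) = NB (rep (cls P)) ∪ (sh σ (NB M) \ sh σ (isoP (rk M) (NB M)))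
    rw [hN1, hN2, Finset.union_sdiff_of_subset]
    intro Y hY
    obtain ⟨X, rfl⟩ := exists_image σ Y
    exact mem_sh.mpr (isoP_subset _ _ (mem_sh.mp hY))

/-- **the main inequality**: non-paving classes of rank `r` -/
theorem sum_nonPaving_le (r : ℕ) (hr : 1 ≤ r) (hrn : r + 1 ≤ n) (l : ℝ) (hl : 0 ≤ l)
    (P : Cls n → Prop) [DecidablePred P] (hP : ∀ c, P c → c.NonPaving) :
    ∑ c : Cls n with c.rk = r ∧ P c, l ^ c.nb ≤
      (∑ c : Cls n with c.rk = r, l ^ c.nb) * ∑ K ∈ unions (cliques n r), l ^ K.card := by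
  classical
  have hex : ∀ c : Cls n, ∃ p : Cls n × Finset (Finset (Fin n)), (c.rk = r ∧ P c) →
      p.1.rk = r ∧ p.2 ∈ unions (cliques n r) ∧ c.nb = p.1.nb + p.2.card ∧
      ∃ M : Mat n, cls M = c ∧ rk M = rk (rep p.1) ∧ NB M = NB (rep p.1) ∪ p.2 := by
    intro c
    by_cases h : c.rk = r ∧ P c
    · obtain ⟨p, h1, h2, h3, h4⟩ := exists_decomp c (hP c h.2) (by rw [h.1]; exact hr)
        (by rw [h.1]; exact hrn)
      rw [h.1] at h1 h2
      exact ⟨p, fun _ => ⟨h1, h2, h3, h4⟩⟩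
    · exact ⟨(c, ∅), fun h' => absurd h' h⟩
  choose e he using hex
  rw [Finset.sum_mul_sum, ← Finset.sum_product']
  refine sum_le_sum_inj _ _ _ (fun p => l ^ p.1.nb * l ^ p.2.card) e ?_ ?_ ?_ ?_
  · intro c hc
    have h := he c (Finset.mem_filter.mp hc).2
    exact Finset.mem_product.mpr ⟨Finset.mem_filter.mpr ⟨Finset.mem_univ _, h.1⟩, h.2.1⟩
  · intro c hc c' hc' heq
    obtain ⟨_, _, _, M, hM1, hM2, hM3⟩ := he c (Finset.mem_filter.mp hc).2
    obtain ⟨_, _, _, M', hM1', hM2', hM3'⟩ := he c' (Finset.mem_filter.mp hc').2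
    rw [← heq] at hM2' hM3'
    have : M = M' := mat_ext (hM2.trans hM2'.symm) (hM3.trans hM3'.symm)
    rw [← hM1, ← hM1', this]
  · intro p _
    positivity
  · intro c hc
    rw [(he c (Finset.mem_filter.mp hc).2).2.2.1, pow_add]

/-- all classes of rank `r` -/
theorem sum_rank_le (r : ℕ) (l : ℝ) (hl : 0 ≤ l) :
    ∑ c : Cls n with c.rk = r, l ^ c.nb ≤ (1 + l) ^ n.choose r := by
  classical
  have h1 : ∑ c : Cls n with c.rk = r, l ^ c.nb ≤
      ∑ S ∈ (powersetCard r (univ : Finset (Fin n))).powerset, l ^ S.card := by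
    refine sum_le_sum_inj _ _ _ (fun S => l ^ S.card) (fun c => NB (rep c)) ?_ ?_ ?_ ?_
    · intro c hc
      rw [Finset.mem_powerset]
      intro X hX
      rw [Finset.mem_powersetCard]
      exact ⟨Finset.subset_univ _, (mem_NB.mp hX).1.trans (Finset.mem_filter.mp hc).2⟩
    · intro c hc c' hc' h
      have h2 : rk (rep c) = rk (rep c') :=
        (Finset.mem_filter.mp hc).2.trans (Finset.mem_filter.mp hc').2.symm
      rw [← cls_rep c, ← cls_rep c', mat_ext h2 h]
    · intro S _; positivity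
    · intro c _
      rw [nb_rep]
  refine h1.trans (le_of_eq ?_)
  have h := Finset.sum_pow_mul_eq_add_pow l 1 (powersetCard r (univ : Finset (Fin n)))
  simp only [one_pow, mul_one] at h
  rw [h, Finset.card_powersetCard, Finset.card_univ, Fintype.card_fin, add_comm]

/-- lower bound for the sum over all classes of rank `r` -/
theorem le_sum_rank (r : ℕ) (hr : 1 ≤ r) (hrn : r + 1 ≤ n) (l : ℝ) (hl : 0 ≤ l)
    (S0 : Finset (Finset (Fin n))) (hS : ∀ X ∈ S0, X.card = r)
    (hst : ∀ X ∈ S0, ∀ Y ∈ S0, (X ∩ Y).card + 1 ≠ r) :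
    (1 + l) ^ S0.card ≤ (n.factorial : ℝ) * ∑ c : Cls n with c.rk = r, l ^ c.nb := by
  classical
  -- a set outside the stable family
  obtain ⟨B0, hB0, hB0S⟩ : ∃ B0 : Finset (Fin n), B0.card = r ∧ B0 ∉ S0 := by
    obtain ⟨C, _, hC⟩ := Finset.exists_subset_card_eq
      (s := (univ : Finset (Fin n))) (n := r - 1) (by simp; omega)
    have hne : (lower C).card = n - (r - 1) := by rw [card_lower, hC]
    by_contra hcon
    push Not at hcon
    obtain ⟨X, hX⟩ : (lower C).Nonempty := by rw [← Finset.card_pos]; omega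
    have hq : lower C ∈ cliques n r := mem_cliques.mpr (Or.inl ⟨C, hC, rfl⟩)
    obtain ⟨h1, Y, hY, hXY⟩ := clique_adj hr hrn hq hX
    obtain ⟨h2, _⟩ := clique_adj hr hrn hq hY
    exact hst X (hcon X h1) Y (hcon Y h2) hXY
  have hex : ∀ S : Finset (Finset (Fin n)), ∃ p : Mat n × Equiv.Perm (Fin n), S ⊆ S0 →
      rk p.1 = r ∧ NB p.1 = S ∧ p.1 = act p.2 (rep (cls p.1)) := by
    intro S
    by_cases h : S ⊆ S0
    · obtain ⟨M, h1, h2⟩ := exists_SP r S (fun X hX => hS X (h hX))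
        (fun X hX Y hY => hst X (h hX) Y (h hY)) B0 hB0 (fun h' => hB0S (h h'))
      obtain ⟨σ, hσ⟩ := act_of_isom (cls_eq.mp (cls_rep (cls M)))
      exact ⟨(M, σ), fun _ => ⟨h1, h2, hσ⟩⟩
    · obtain ⟨M, _, _⟩ := exists_SP r ∅ (by simp) (by simp) B0 hB0 (by simp)
      exact ⟨(M, 1), fun h' => absurd h' h⟩
  choose e he using hex
  have h1 : (1 + l) ^ S0.card = ∑ S ∈ S0.powerset, l ^ S.card := by
    have h := Finset.sum_pow_mul_eq_add_pow l 1 S0
    simp only [one_pow, mul_one] at h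
    rw [h, add_comm]
  have h2 : (n.factorial : ℝ) * ∑ c : Cls n with c.rk = r, l ^ c.nb =
      ∑ p ∈ (univ : Finset (Equiv.Perm (Fin n))) ×ˢ (univ.filter (fun c : Cls n => c.rk = r)),
        l ^ p.2.nb := by
    rw [Finset.sum_product]
    show _ = ∑ _x : Equiv.Perm (Fin n), ∑ c : Cls n with c.rk = r, l ^ c.nb
    rw [Finset.sum_const, Finset.card_univ, Fintype.card_perm,
      Fintype.card_fin, nsmul_eq_mul]
  rw [h1, h2]
  refine sum_le_sum_inj _ _ _ (fun p => l ^ p.2.nb) (fun S => ((e S).2, cls (e S).1)) ?_ ?_ ?_ ?_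
  · intro S hS'
    have h := he S (Finset.mem_powerset.mp hS')
    refine Finset.mem_product.mpr ⟨Finset.mem_univ _, Finset.mem_filter.mpr
      ⟨Finset.mem_univ _, ?_⟩⟩
    rw [rk_cls, h.1]
  · intro S hS' T hT' heq
    have h := he S (Finset.mem_powerset.mp hS')
    have h' := he T (Finset.mem_powerset.mp hT')
    have h3 : (e S).2 = (e T).2 := congrArg Prod.fst heq
    have h4 : cls (e S).1 = cls (e T).1 := congrArg Prod.snd heq
    have h5 : (e S).1 = (e T).1 := by rw [h.2.2, h'.2.2, h3, h4]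
    rw [← h.2.1, ← h'.2.1, h5]
  · intro p _; positivity
  · intro S hS'
    have h := he S (Finset.mem_powerset.mp hS')
    show l ^ S.card ≤ l ^ (cls (e S).1).nb
    rw [nb_cls, h.2.1]

end H38Pav
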