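import Pool.Agent.H38Pav.Classes

/-!
MP_039b14_co: the asymptotic estimates.
-/

namespace H38Pav

open Finset Filter Topology

/-! ### binomial coefficients far from the middle -/

theorem choose_pow_bound (n r : ℕ) (h : r ≤ n) (hr : 9 * r ≤ 4 * n) :
    (n.choose r) ^ 9 * 800000 ^ n ≤ 387420489 ^ n := by
  have h1 : n.choose r * (4 ^ r * 5 ^ (n - r)) ≤ 9 ^ n := by
    have h2 : (4 + 5 : ℕ) ^ n = ∑ m ∈ Finset.range (n + 1), 4 ^ m * 5 ^ (n - m) * n.choose m :=
      add_pow 4 5 n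
    have h3 : 4 ^ r * 5 ^ (n - r) * n.choose r ≤
        ∑ m ∈ Finset.range (n + 1), 4 ^ m * 5 ^ (n - m) * n.choose m :=
      Finset.single_le_sum (f := fun m => 4 ^ m * 5 ^ (n - m) * n.choose m)
        (fun _ _ => Nat.zero_le _) (Finset.mem_range.mpr (by omega))
    rw [← h2] at h3
    calc _ = 4 ^ r * 5 ^ (n - r) * n.choose r := by ring
      _ ≤ _ := h3
  have h4 : (800000 : ℕ) ^ n ≤ (4 ^ r * 5 ^ (n - r)) ^ 9 := by
    have e1 : (800000 : ℕ) ^ n = 4 ^ (4 * n) * 5 ^ (5 * n) := by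
      rw [pow_mul, pow_mul, ← mul_pow]; norm_num
    have e2 : (4 ^ r * 5 ^ (n - r)) ^ 9 = 4 ^ (9 * r) * 5 ^ (9 * (n - r)) := by
      rw [mul_pow, ← pow_mul, ← pow_mul, mul_comm r 9, mul_comm (n - r) 9]
    have e3 : (4 : ℕ) ^ (4 * n) = 4 ^ (9 * r) * 4 ^ (4 * n - 9 * r) := by
      rw [← pow_add]; congr 1; omega
    have e4 : (5 : ℕ) ^ (9 * (n - r)) = 5 ^ (4 * n - 9 * r) * 5 ^ (5 * n) := by
      rw [← pow_add]; congr 1; omega
    rw [e1, e2, e3, e4]
    calc 4 ^ (9 * r) * 4 ^ (4 * n - 9 * r) * 5 ^ (5 * n)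
        ≤ 4 ^ (9 * r) * 5 ^ (4 * n - 9 * r) * 5 ^ (5 * n) := by
          gcongr; norm_num
      _ = _ := by ring
  calc (n.choose r) ^ 9 * 800000 ^ n ≤ (n.choose r) ^ 9 * (4 ^ r * 5 ^ (n - r)) ^ 9 :=
        Nat.mul_le_mul_left _ h4
    _ = (n.choose r * (4 ^ r * 5 ^ (n - r))) ^ 9 := (mul_pow _ _ _).symm
    _ ≤ (9 ^ n) ^ 9 := Nat.pow_le_pow_left h1 9
    _ = 387420489 ^ n := by
        rw [← pow_mul, mul_comm n 9, pow_mul]; norm_num

theorem choose_le_pow (n r : ℕ) (h : r ≤ n) (hr : 9 * (min (n - r) r) ≤ 4 * n) :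
    (n.choose r : ℝ) ≤ (199 / 100 : ℝ) ^ n := by
  have key : ∀ r : ℕ, r ≤ n → 9 * r ≤ 4 * n → (n.choose r : ℝ) ≤ (199 / 100 : ℝ) ^ n := by
    intro r h hr
    have h1 : ((n.choose r : ℝ)) ^ 9 * 800000 ^ n ≤ 387420489 ^ n := by
      exact_mod_cast choose_pow_bound n r h hr
    have h2 : (387420489 : ℝ) ^ n ≤ ((199 / 100 : ℝ) ^ n) ^ 9 * 800000 ^ n := by
      rw [← pow_mul, mul_comm n 9, pow_mul, ← mul_pow]
      exact pow_le_pow_left₀ (by norm_num) (by norm_num) n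
    have h3 : ((n.choose r : ℝ)) ^ 9 ≤ ((199 / 100 : ℝ) ^ n) ^ 9 := by
      have h4 := h1.trans h2
      exact le_of_mul_le_mul_right h4 (by positivity)
    exact le_of_pow_le_pow_left₀ (by norm_num) (by positivity) h3
  rcases le_total (n - r) r with h1 | h1
  · rw [min_eq_left h1] at hr
    have := key (n - r) (Nat.sub_le _ _) hr
    rwa [Nat.choose_symm h] at this
  · rw [min_eq_right h1] at hr
    exact key r h hr

theorem two_pow_le (n : ℕ) : 2 ^ n ≤ (n + 1) * n.choose (n / 2) := by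
  rw [← Nat.sum_range_choose]
  calc ∑ m ∈ Finset.range (n + 1), n.choose m ≤ ∑ m ∈ Finset.range (n + 1), n.choose (n / 2) :=
        Finset.sum_le_sum (fun m _ => Nat.choose_le_middle m n)
    _ = _ := by rw [Finset.sum_const, Finset.card_range, smul_eq_mul]

/-- polynomials are small -/
theorem eventually_poly (k : ℕ) (A b : ℝ) (hb : 1 < b) :
    ∀ᶠ n : ℕ in atTop, A * ((n : ℝ) + 1) ^ k ≤ b ^ n := by
  have h1 : Tendsto (fun n : ℕ => (n : ℝ) ^ k * (1 / b) ^ n) atTop (𝓝 0) :=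
    tendsto_pow_const_mul_const_pow_of_abs_lt_one k (by
      rw [abs_of_pos (by positivity)]
      exact (div_lt_one (by linarith)).mpr hb)
  have h2 : Tendsto (fun n : ℕ => (((n + 1 : ℕ) : ℝ)) ^ k * (1 / b) ^ (n + 1)) atTop (𝓝 0) :=
    h1.comp (tendsto_add_atTop_nat 1)
  have h3 : Tendsto (fun n : ℕ => (A * b) * ((((n + 1 : ℕ) : ℝ)) ^ k * (1 / b) ^ (n + 1)))
      atTop (𝓝 ((A * b) * 0)) := h2.const_mul _
  rw [mul_zero] at h3
  have h4 := h3.eventually (gt_mem_nhds (show (0 : ℝ) < 1 by norm_num))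
  filter_upwards [h4] with n hn
  have hb0 : 0 < b := by linarith
  have e : (A * b) * ((((n + 1 : ℕ) : ℝ)) ^ k * (1 / b) ^ (n + 1)) =
      (A * ((n : ℝ) + 1) ^ k) / b ^ n := by
    push_cast
    rw [pow_succ, div_pow, one_pow]
    field_simp
  rw [e, div_lt_one (by positivity)] at hn
  exact hn.le

/-- the gap between the middle and the far ranks -/
theorem eventually_gap : ∀ᶠ n : ℕ in atTop, ∀ r ≤ n, 9 * (min (n - r) r) ≤ 4 * n →
    n * (n.choose r + n * (n + 1)) ≤ n.choose (n / 2) := by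
  have h1 := eventually_poly 2 2 (200 / 199) (by norm_num)
  have h2 := eventually_poly 4 2 2 (by norm_num)
  filter_upwards [h1, h2] with n h1 h2 r hr hr9
  have h3 := choose_le_pow n r hr hr9
  have h4 : ((2 : ℝ)) ^ n ≤ ((n : ℝ) + 1) * n.choose (n / 2) := by
    exact_mod_cast two_pow_le n
  have hn1 : (0 : ℝ) < (n : ℝ) + 1 := by positivity
  have h5 : ((n : ℝ) + 1) ^ 2 * n.choose r ≤ 2 ^ n / 2 := by
    have e : ((200 / 199 : ℝ)) ^ n * (199 / 100) ^ n = 2 ^ n := by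
      rw [← mul_pow]; norm_num
    have h6 : (2 * ((n : ℝ) + 1) ^ 2) * n.choose r ≤ (200 / 199) ^ n * (199 / 100) ^ n :=
      mul_le_mul h1 h3 (by positivity) (by positivity)
    rw [e] at h6
    linarith
  have h7 : ((n : ℝ) * (n.choose r + n * (n + 1))) ≤ n.choose (n / 2) := by
    have h8 : ((n : ℝ) + 1) * ((n : ℝ) * (n.choose r + n * (n + 1))) ≤
        ((n : ℝ) + 1) * n.choose (n / 2) := by
      calc ((n : ℝ) + 1) * ((n : ℝ) * (n.choose r + n * (n + 1)))
          ≤ ((n : ℝ) + 1) * (((n : ℝ) + 1) * (n.choose r + (n + 1) * (n + 1))) := by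
            gcongr <;> linarith
        _ = ((n : ℝ) + 1) ^ 2 * n.choose r + ((n : ℝ) + 1) ^ 4 := by ring
        _ ≤ 2 ^ n / 2 + 2 ^ n / 2 := by linarith
        _ = 2 ^ n := by ring
        _ ≤ _ := h4
    exact le_of_mul_le_mul_left h8 hn1
  exact_mod_cast h7

theorem kap_le (t : ℝ) (m : ℕ) (ht : 0 ≤ t) (h : m * t ≤ 1) : (1 + t) ^ m - 1 ≤ 2 * (m * t) := by
  have h1 : (1 + t) ^ m ≤ Real.exp (m * t) := by
    calc (1 + t) ^ m ≤ (Real.exp t) ^ m :=
          pow_le_pow_left₀ (by linarith) (by linarith [Real.add_one_le_exp t]) m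
      _ = Real.exp (m * t) := by rw [← Real.exp_nat_mul]
  have h2 : 0 ≤ m * t := by positivity
  have h3 := Real.abs_exp_sub_one_sub_id_le (x := m * t) (by rw [abs_of_nonneg h2]; exact h)
  have h4 := (abs_le.mp h3).2
  nlinarith

variable {n : ℕ}

theorem wsum_nonneg (n : ℕ) (l : ℝ) (hl : 0 ≤ l) (P : Cls n → Prop) : 0 ≤ wsum n l P := by
  unfold wsum
  exact Finset.sum_nonneg (fun _ _ => by positivity)

theorem wsum_mono (n : ℕ) (l : ℝ) (hl : 0 ≤ l) {P P' : Cls n → Prop} (h : ∀ c, P c → P' c) :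
    wsum n l P ≤ wsum n l P' := by
  classical
  unfold wsum
  refine Finset.sum_le_sum_of_subset_of_nonneg ?_ (fun _ _ _ => by positivity)
  intro c hc
  exact Finset.mem_filter.mpr ⟨Finset.mem_univ _, h c (Finset.mem_filter.mp hc).2⟩

theorem clsrk_le (c : Cls n) : c.rk ≤ n := rk_le _

/-- splitting according to the rank -/
theorem wsum_le (l : ℝ) (hl : 0 ≤ l) (hl1 : l ≤ 1) (hx : l * (1 + l) ^ 9 ≤ 1) (hn : 3 ≤ n)
    (b : ℕ) (hb : ∀ r ≤ n, 9 * (min (n - r) r) ≤ 4 * n → n.choose r ≤ b) :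
    wsum n l Cls.NonPaving ≤ wsum n l (fun _ => True) *
      ((1 + (l * (1 + l) ^ 9) ^ (n / 3)) ^ (2 ^ n) - 1) + (n + 1) * (1 + l) ^ b := by
  classical
  set κ : ℝ := (1 + (l * (1 + l) ^ 9) ^ (n / 3)) ^ (2 ^ n) - 1 with hκ
  have hx0 : 0 ≤ l * (1 + l) ^ 9 := by positivity
  have hκ0 : 0 ≤ κ := by
    have : (1 : ℝ) ≤ (1 + (l * (1 + l) ^ 9) ^ (n / 3)) ^ (2 ^ n) :=
      one_le_pow₀ (by linarith [pow_nonneg hx0 (n / 3)])
    linarith
  have h1 : ∀ Q : Cls n → Prop, wsum n l Q =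
      ∑ r ∈ Finset.range (n + 1), ∑ c : Cls n with c.rk = r ∧ Q c, l ^ c.nb := by
    intro Q
    unfold wsum
    rw [← Finset.sum_fiberwise_of_maps_to (s := univ.filter (fun c : Cls n => Q c))
      (t := Finset.range (n + 1)) (g := fun c => c.rk)
      (fun c _ => Finset.mem_range.mpr (by have := clsrk_le c; omega))]
    refine Finset.sum_congr rfl (fun r _ => ?_)
    rw [Finset.filter_filter]
    refine Finset.sum_congr ?_ (fun _ _ => rfl)
    ext c
    simp [and_comm]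
  have hT : wsum n l (fun _ => True) =
      ∑ r ∈ Finset.range (n + 1), ∑ c : Cls n with c.rk = r, l ^ c.nb := by
    rw [h1]
    refine Finset.sum_congr rfl (fun r _ => Finset.sum_congr ?_ (fun _ _ => rfl))
    ext c
    simp
  rw [h1 Cls.NonPaving, hT]
  have h2 : ∀ r ∈ Finset.range (n + 1), ∑ c : Cls n with c.rk = r ∧ c.NonPaving, l ^ c.nb ≤
      (∑ c : Cls n with c.rk = r, l ^ c.nb) * κ + (1 + l) ^ b := by
    intro r hr
    have hr' : r ≤ n := by have := Finset.mem_range.mp hr; omega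
    have h0 : 0 ≤ ∑ c : Cls n with c.rk = r, l ^ c.nb :=
      Finset.sum_nonneg (fun _ _ => by positivity)
    by_cases hmid : 9 * (min (n - r) r) ≤ 4 * n
    · have h3 : ∑ c : Cls n with c.rk = r ∧ c.NonPaving, l ^ c.nb ≤
          ∑ c : Cls n with c.rk = r, l ^ c.nb := by
        refine Finset.sum_le_sum_of_subset_of_nonneg ?_ (fun _ _ _ => by positivity)
        intro c hc
        exact Finset.mem_filter.mpr ⟨Finset.mem_univ _, (Finset.mem_filter.mp hc).2.1⟩
      have h4 := sum_rank_le (n := n) r l hl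
      have h5 : (1 + l) ^ n.choose r ≤ (1 + l) ^ b :=
        pow_le_pow_right₀ (by linarith) (hb r hr' hmid)
      have h6 : 0 ≤ (∑ c : Cls n with c.rk = r, l ^ c.nb) * κ := mul_nonneg h0 hκ0
      linarith
    · push Not at hmid
      have hr1 : 1 ≤ r := by omega
      have hrn : r + 1 ≤ n := by omega
      have h3 := sum_nonPaving_le (n := n) r hr1 hrn l hl Cls.NonPaving (fun _ h => h)
      have h4 := sum_unions_le (cliques n r) (min (n - r) r + 1) (n / 3) n (by omega) (by omega)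
        (by omega) (fun q hq => card_clique hr1 hrn hq) (deg_clique hr1 hrn) l hl hl1 hx
      have h5 : (1 + (l * (1 + l) ^ 9) ^ (n / 3)) ^ (cliques n r).card - 1 ≤ κ := by
        have := pow_le_pow_right₀ (a := 1 + (l * (1 + l) ^ 9) ^ (n / 3))
          (by linarith [pow_nonneg hx0 (n / 3)]) (card_cliques_le (n := n) hr1)
        linarith
      calc _ ≤ _ := h3
        _ ≤ (∑ c : Cls n with c.rk = r, l ^ c.nb) * κ :=
            mul_le_mul_of_nonneg_left (h4.trans h5) h0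
        _ ≤ _ := by
            have : 0 ≤ (1 + l) ^ b := by positivity
            linarith
  refine (Finset.sum_le_sum h2).trans (le_of_eq ?_)
  rw [Finset.sum_add_distrib, ← Finset.sum_mul, Finset.sum_const, Finset.card_range, nsmul_eq_mul]
  push_cast
  ring

/-- lower bound for the total weight -/
theorem le_wsum (l : ℝ) (hl : 0 ≤ l) (hn : 2 ≤ n) : ∃ a : ℕ, n.choose (n / 2) ≤ n * a ∧
    (1 + l) ^ a ≤ (n.factorial : ℝ) * wsum n l (fun _ => True) := by
  classical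
  obtain ⟨S, hS1, hS2, hS3⟩ := exists_stable n (n / 2) (by omega) (by omega)
  refine ⟨S.card, hS3, ?_⟩
  refine (le_sum_rank (n / 2) (by omega) (by omega) l hl S hS1 hS2).trans ?_
  refine mul_le_mul_of_nonneg_left ?_ (by positivity)
  unfold wsum
  refine Finset.sum_le_sum_of_subset_of_nonneg ?_ (fun _ _ _ => by positivity)
  intro c _
  simp

theorem wsum_pos (l : ℝ) (hl : 0 ≤ l) (hn : 2 ≤ n) : 0 < wsum n l (fun _ => True) := by
  obtain ⟨a, _, ha⟩ := le_wsum l hl hn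
  have h1 : (0 : ℝ) < (1 + l) ^ a := by positivity
  have h2 : 0 < (n.factorial : ℝ) * wsum n l (fun _ => True) := lt_of_lt_of_le h1 ha
  exact (pos_iff_pos_of_mul_pos h2).mp (by positivity)

/-- an explicit bound for the ratio -/
theorem eventually_ratio_le (l : ℝ) (hl : 0 ≤ l) (hl1 : l ≤ 1) (hx : l * (1 + l) ^ 9 ≤ 1) :
    ∀ᶠ n : ℕ in atTop, wsum n l Cls.NonPaving / wsum n l (fun _ => True) ≤
      ((1 + (l * (1 + l) ^ 9) ^ (n / 3)) ^ (2 ^ n) - 1) +
        (((n : ℝ) + 1) / (1 + l) ^ n) ^ (n + 1) := by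
  filter_upwards [eventually_gap, eventually_ge_atTop 3] with n hgap hn
  have hpos := wsum_pos (n := n) l hl (by omega)
  -- the largest far binomial coefficient
  obtain ⟨b, hb, hb'⟩ : ∃ b : ℕ, (∀ r ≤ n, 9 * (min (n - r) r) ≤ 4 * n → n.choose r ≤ b) ∧
      n * (b + n * (n + 1)) ≤ n.choose (n / 2) := by
    let R := (Finset.range (n + 1)).filter (fun r => 9 * (min (n - r) r) ≤ 4 * n)
    have hR : R.Nonempty := ⟨0, Finset.mem_filter.mpr ⟨Finset.mem_range.mpr (by omega), by simp⟩⟩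
    obtain ⟨r0, hr0, hmax⟩ := Finset.exists_max_image R (fun r => n.choose r) hR
    obtain ⟨h1, h2⟩ := Finset.mem_filter.mp hr0
    refine ⟨n.choose r0, fun r hr hr9 => hmax r (Finset.mem_filter.mpr
      ⟨Finset.mem_range.mpr (by omega), hr9⟩), hgap r0 (by have := Finset.mem_range.mp h1; omega) h2⟩
  have h1 := wsum_le (n := n) l hl hl1 hx hn b hb
  obtain ⟨a, ha1, ha2⟩ := le_wsum (n := n) l hl (by omega)
  have hab : b + n * (n + 1) ≤ a := by
    have : n * (b + n * (n + 1)) ≤ n * a := hb'.trans ha1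
    exact Nat.le_of_mul_le_mul_left this (by omega)
  have h2 : ((n : ℝ) + 1) * (1 + l) ^ b ≤
      wsum n l (fun _ => True) * (((n : ℝ) + 1) / (1 + l) ^ n) ^ (n + 1) := by
    have h3 : (1 + l) ^ b * (1 + l) ^ (n * (n + 1)) ≤
        (n.factorial : ℝ) * wsum n l (fun _ => True) := by
      rw [← pow_add]
      exact (pow_le_pow_right₀ (by linarith) hab).trans ha2
    have h4 : ((n.factorial : ℝ)) * (n + 1) ≤ ((n : ℝ) + 1) ^ (n + 1) := by
      have := Nat.factorial_le_pow (n + 1)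
      rw [Nat.factorial_succ] at this
      have h' : (((n + 1) * n.factorial : ℕ) : ℝ) ≤ (((n + 1) ^ (n + 1) : ℕ) : ℝ) := by
        exact_mod_cast this
      push_cast at h'
      linarith
    rw [div_pow, ← pow_mul, mul_div_assoc']
    rw [le_div_iff₀ (by positivity)]
    calc ((n : ℝ) + 1) * (1 + l) ^ b * (1 + l) ^ (n * (n + 1))
        = ((n : ℝ) + 1) * ((1 + l) ^ b * (1 + l) ^ (n * (n + 1))) := by ring
      _ ≤ ((n : ℝ) + 1) * ((n.factorial : ℝ) * wsum n l (fun _ => True)) :=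
          mul_le_mul_of_nonneg_left h3 (by positivity)
      _ = wsum n l (fun _ => True) * ((n.factorial : ℝ) * (n + 1)) := by ring
      _ ≤ _ := mul_le_mul_of_nonneg_left h4 hpos.le
  rw [div_le_iff₀ hpos]
  calc _ ≤ _ := h1
    _ ≤ _ := by linarith

/-- **the ratio tends to zero**, even after multiplication by `D ^ n` -/
theorem tendsto_ratio (l D : ℝ) (hl : 0 < l) (hl1 : l ≤ 1) (hD : 1 ≤ D)
    (hx : (2 * D) ^ 3 * (l * (1 + l) ^ 9) < 1) :
    Tendsto (fun n : ℕ => D ^ n * (wsum n l Cls.NonPaving / wsum n l (fun _ => True)))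
      atTop (𝓝 0) := by
  set x := l * (1 + l) ^ 9 with hxdef
  have hx0 : 0 < x := by positivity
  have hx1 : x ≤ 1 := by
    have : (1 : ℝ) ≤ (2 * D) ^ 3 := one_le_pow₀ (by linarith)
    nlinarith
  -- first term
  have hmod : ∀ n : ℕ, n ≤ 3 * (n / 3) + 2 := fun n => by omega
  have hy : ∀ n : ℕ, D ^ n * ((2 : ℝ) ^ n * x ^ (n / 3)) ≤
      (2 * D) ^ 2 * ((2 * D) ^ 3 * x) ^ (n / 3) := by
    intro n
    have h1 : (2 * D) ^ n ≤ (2 * D) ^ (3 * (n / 3) + 2) :=
      pow_le_pow_right₀ (by linarith) (hmod n)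
    calc D ^ n * ((2 : ℝ) ^ n * x ^ (n / 3)) = (2 * D) ^ n * x ^ (n / 3) := by
          rw [mul_pow]; ring
      _ ≤ (2 * D) ^ (3 * (n / 3) + 2) * x ^ (n / 3) :=
          mul_le_mul_of_nonneg_right h1 (by positivity)
      _ = _ := by rw [pow_add, pow_mul, mul_pow ((2 * D) ^ 3)]; ring
  have hdiv : Tendsto (fun n : ℕ => n / 3) atTop atTop := by
    refine tendsto_atTop.mpr (fun b => ?_)
    filter_upwards [eventually_ge_atTop (3 * b)] with n hn
    omega
  have hy0 : Tendsto (fun n : ℕ => (2 * D) ^ 2 * ((2 * D) ^ 3 * x) ^ (n / 3)) atTop (𝓝 0) := by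
    have h1 : Tendsto (fun m : ℕ => ((2 * D) ^ 3 * x) ^ m) atTop (𝓝 0) :=
      tendsto_pow_atTop_nhds_zero_of_lt_one (by positivity) hx
    have h2 := (h1.comp hdiv).const_mul ((2 * D) ^ 2)
    simpa using h2
  -- second term
  have hz : Tendsto (fun n : ℕ => D * (((n : ℝ) + 1) / (1 + l) ^ n)) atTop (𝓝 0) := by
    have h1 : Tendsto (fun n : ℕ => (n : ℝ) ^ 1 * (1 / (1 + l)) ^ n) atTop (𝓝 0) :=
      tendsto_pow_const_mul_const_pow_of_abs_lt_one 1 (by
        rw [abs_of_pos (by positivity)]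
        exact (div_lt_one (by linarith)).mpr (by linarith))
    have h2 : Tendsto (fun n : ℕ => (1 / (1 + l)) ^ n) atTop (𝓝 0) :=
      tendsto_pow_atTop_nhds_zero_of_lt_one (by positivity)
        ((div_lt_one (by linarith)).mpr (by linarith))
    have h3 := (h1.add h2).const_mul D
    simp only [add_zero, mul_zero] at h3
    refine h3.congr (fun n => ?_)
    rw [pow_one, div_pow, one_pow]
    ring
  have hzb : ∀ᶠ n : ℕ in atTop, D ^ n * (((n : ℝ) + 1) / (1 + l) ^ n) ^ (n + 1) ≤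
      D * (((n : ℝ) + 1) / (1 + l) ^ n) := by
    filter_upwards [hz.eventually (gt_mem_nhds (show (0 : ℝ) < 1 by norm_num))] with n hn
    set z := ((n : ℝ) + 1) / (1 + l) ^ n with hzdef
    have hz0 : 0 ≤ z := by positivity
    have h1 : (D * z) ^ (n + 1) ≤ D * z := by
      have := pow_le_pow_of_le_one (by positivity : 0 ≤ D * z) hn.le (show 1 ≤ n + 1 by omega)
      rwa [pow_one] at this
    calc D ^ n * z ^ (n + 1) ≤ D ^ (n + 1) * z ^ (n + 1) := by
          refine mul_le_mul_of_nonneg_right ?_ (by positivity)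
          exact pow_le_pow_right₀ hD (by omega)
      _ = (D * z) ^ (n + 1) := by rw [mul_pow]
      _ ≤ _ := h1
  have hfin : Tendsto (fun n : ℕ => 2 * ((2 * D) ^ 2 * ((2 * D) ^ 3 * x) ^ (n / 3)) +
      D * (((n : ℝ) + 1) / (1 + l) ^ n)) atTop (𝓝 0) := by
    have := (hy0.const_mul 2).add hz
    simpa using this
  refine tendsto_of_tendsto_of_tendsto_of_le_of_le' tendsto_const_nhds hfin ?_ ?_
  · refine Eventually.of_forall (fun n => ?_)
    have := wsum_nonneg n l hl.le Cls.NonPaving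
    have := wsum_nonneg n l hl.le (fun _ => True)
    positivity
  · filter_upwards [eventually_ratio_le l hl.le hl1 hx1, hzb,
      hy0.eventually (gt_mem_nhds (show (0 : ℝ) < 1 by norm_num))] with n h1 h2 h3
    have h4 : (2 : ℝ) ^ n * x ^ (n / 3) ≤ 1 := by
      have h5 : (1 : ℝ) ≤ D ^ n := one_le_pow₀ hD
      have h6 : 0 ≤ (2 : ℝ) ^ n * x ^ (n / 3) := by positivity
      have h7 := hy n
      nlinarith
    have h8 := kap_le (x ^ (n / 3)) (2 ^ n) (by positivity) (by push_cast; exact h4)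
    push_cast at h8
    have h9 : (0 : ℝ) < D ^ n := by positivity
    calc D ^ n * (wsum n l Cls.NonPaving / wsum n l (fun _ => True))
        ≤ D ^ n * (((1 + x ^ (n / 3)) ^ (2 ^ n) - 1) +
          (((n : ℝ) + 1) / (1 + l) ^ n) ^ (n + 1)) := mul_le_mul_of_nonneg_left h1 h9.le
      _ ≤ D ^ n * (2 * (2 ^ n * x ^ (n / 3)) + (((n : ℝ) + 1) / (1 + l) ^ n) ^ (n + 1)) := by
          gcongr
      _ = 2 * (D ^ n * (2 ^ n * x ^ (n / 3))) +
          D ^ n * (((n : ℝ) + 1) / (1 + l) ^ n) ^ (n + 1) := by ring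
      _ ≤ _ := by
          have := hy n
          linarith

end H38Pav
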