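import Mathlib

/-!
MP_039b14_co: definitions.
-/

namespace H38Pav

/-- matroids with ground set `Fin n` -/
abbrev Mat (n : ℕ) : Type := {M : Matroid (Fin n) // M.E = Set.univ}

/-- isomorphism of matroids on `Fin n`: a permutation of the ground set maps the bases of the first
one to the bases of the second one -/
def Isom {n : ℕ} (M N : Matroid (Fin n)) : Prop :=
  ∃ σ : Equiv.Perm (Fin n), ∀ B : Set (Fin n), M.IsBase B ↔ N.IsBase (σ '' B)

theorem Isom.refl {n : ℕ} (M : Matroid (Fin n)) : Isom M M := ⟨Equiv.refl _, fun B => by simp⟩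

theorem Isom.symm {n : ℕ} {M N : Matroid (Fin n)} (h : Isom M N) : Isom N M := by
  obtain ⟨σ, hσ⟩ := h
  refine ⟨σ.symm, fun B => ?_⟩
  rw [hσ, ← Set.image_comp]
  simp

theorem Isom.trans {n : ℕ} {M N P : Matroid (Fin n)} (h : Isom M N) (h' : Isom N P) :
    Isom M P := by
  obtain ⟨σ, hσ⟩ := h
  obtain ⟨τ, hτ⟩ := h'
  refine ⟨σ.trans τ, fun B => ?_⟩
  rw [hσ, hτ, ← Set.image_comp]
  rfl

/-- isomorphism as an equivalence relation -/
instance isomSetoid (n : ℕ) : Setoid (Mat n) where
  r M N := Isom M.1 N.1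
  iseqv := ⟨fun M => Isom.refl M.1, fun h => h.symm, fun h h' => h.trans h'⟩

/-- the isomorphism classes of matroids on an `n`-element ground set -/
def Cls (n : ℕ) : Type := Quotient (isomSetoid n)

/-- the isomorphism class of a matroid -/
def cls {n : ℕ} (M : Mat n) : Cls n := Quotient.mk (isomSetoid n) M

/-- the number of nonbases: subsets of size `r(M)` of the ground set which are not bases -/
noncomputable def nonbases {n : ℕ} (M : Matroid (Fin n)) : ℕ :=
  {X : Set (Fin n) | X.encard = M.eRank ∧ ¬ M.IsBase X}.ncard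

theorem Isom.eRank_eq {n : ℕ} {M N : Matroid (Fin n)} (h : Isom M N) : M.eRank = N.eRank := by
  obtain ⟨σ, hσ⟩ := h
  obtain ⟨B, hB⟩ := M.exists_isBase
  rw [← hB.encard_eq_eRank, ← ((hσ B).mp hB).encard_eq_eRank,
    Function.Injective.encard_image σ.injective]

theorem Isom.nonbases_eq {n : ℕ} {M N : Matroid (Fin n)} (h : Isom M N) :
    nonbases M = nonbases N := by
  have hr := h.eRank_eq
  obtain ⟨σ, hσ⟩ := h
  unfold nonbases
  have : {X : Set (Fin n) | X.encard = N.eRank ∧ ¬ N.IsBase X} =
      (fun X => σ '' X) '' {X : Set (Fin n) | X.encard = M.eRank ∧ ¬ M.IsBase X} := by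
    ext X
    simp only [Set.mem_setOf_eq, Set.mem_image]
    constructor
    · rintro ⟨h1, h2⟩
      refine ⟨σ.symm '' X, ⟨?_, ?_⟩, ?_⟩
      · rw [Function.Injective.encard_image σ.symm.injective, h1, hr]
      · rw [hσ, ← Set.image_comp]; simpa using h2
      · rw [← Set.image_comp]; simp
    · rintro ⟨Y, ⟨h1, h2⟩, rfl⟩
      refine ⟨?_, ?_⟩
      · rw [Function.Injective.encard_image σ.injective, h1, hr]
      · rwa [← hσ]
  rw [this, Set.ncard_image_of_injective _ (Set.image_injective.mpr σ.injective)]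

/-- the number of nonbases of (the members of) an isomorphism class -/
noncomputable def Cls.nb {n : ℕ} (c : Cls n) : ℕ :=
  Quotient.lift (fun M : Mat n => nonbases M.1) (fun _ _ h => Isom.nonbases_eq h) c

/-- `M` is paving: every circuit has at least `r(M)` elements -/
def Paving {n : ℕ} (M : Matroid (Fin n)) : Prop := ∀ C, M.IsCircuit C → M.eRank ≤ C.encard

/-- `M` has a minor consisting of one loop `a` and two coloops `b`, `c` -/
def HasMG {n : ℕ} (M : Matroid (Fin n)) : Prop :=
  ∃ N : Matroid (Fin n), N ≤m M ∧ ∃ a b c, a ≠ b ∧ a ≠ c ∧ b ≠ c ∧ N.E = {a, b, c} ∧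
    ∀ B, N.IsBase B ↔ B = {b, c}

/-- classes of matroids which are not paving -/
def Cls.NonPaving {n : ℕ} (c : Cls n) : Prop := ∃ M : Mat n, cls M = c ∧ ¬ Paving M.1

/-- classes of matroids which have an `M(G)`-minor -/
def Cls.HasMG {n : ℕ} (c : Cls n) : Prop := ∃ M : Mat n, cls M = c ∧ H38Pav.HasMG M.1

instance (n : ℕ) : Finite (Mat n) := by
  have : Function.Injective (fun M : Mat n => {B : Set (Fin n) | M.1.IsBase B}) := by
    intro M N h
    apply Subtype.ext
    refine Matroid.ext_isBase (by rw [M.2, N.2]) (fun B _ => ?_)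
    have : B ∈ {B : Set (Fin n) | M.1.IsBase B} ↔ B ∈ {B : Set (Fin n) | N.1.IsBase B} := by
      have h' : {B : Set (Fin n) | M.1.IsBase B} = {B : Set (Fin n) | N.1.IsBase B} := h
      rw [h']
    exact this
  exact Finite.of_injective _ this

instance (n : ℕ) : Finite (Cls n) := Quotient.finite _

noncomputable instance (n : ℕ) : Fintype (Cls n) := Fintype.ofFinite _

open Classical in
/-- the sum of `l ^ (number of nonbases)` over the isomorphism classes with property `P` -/
noncomputable def wsum (n : ℕ) (l : ℝ) (P : Cls n → Prop) : ℝ :=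
  ∑ c : Cls n with P c, l ^ c.nb

/-- the number of isomorphism classes with exactly `k` nonbases and property `P` -/
noncomputable def cnt (n k : ℕ) (P : Cls n → Prop) : ℕ := Nat.card {c : Cls n // c.nb = k ∧ P c}

end H38Pav
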