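import Mathlib

/-!
MP_039b14_co: an encoding bound for unions of hyperedges.

`Q` is a family of finite sets, each of size at least `s`, each point in at most `d` members.
We bound the generating function of the sizes of all unions of nonempty subfamilies of `Q`.
-/

namespace H38Pav

open Finset

theorem sum_le_sum_inj {ι κ : Type*} [DecidableEq κ] (s : Finset ι) (t : Finset κ) (f : ι → ℝ)
    (g : κ → ℝ) (e : ι → κ) (he : ∀ i ∈ s, e i ∈ t) (hinj : Set.InjOn e s)
    (hg : ∀ k ∈ t, 0 ≤ g k) (hle : ∀ i ∈ s, f i ≤ g (e i)) :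
    ∑ i ∈ s, f i ≤ ∑ k ∈ t, g k := by
  calc ∑ i ∈ s, f i ≤ ∑ i ∈ s, g (e i) := Finset.sum_le_sum hle
    _ = ∑ k ∈ s.image e, g k := (Finset.sum_image hinj).symm
    _ ≤ ∑ k ∈ t, g k := by
        refine Finset.sum_le_sum_of_subset_of_nonneg ?_ (fun k hk _ => hg k hk)
        intro k hk
        obtain ⟨i, hi, rfl⟩ := Finset.mem_image.mp hk
        exact he i hi

variable {V : Type*} [DecidableEq V]

/-- the unions of the nonempty subfamilies of `Q` -/
def unions (Q : Finset (Finset V)) : Finset (Finset V) :=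
  (Q.powerset.erase ∅).image (fun T => T.biUnion id)

theorem mem_unions {Q : Finset (Finset V)} {K : Finset V} :
    K ∈ unions Q ↔ ∃ T, T ≠ ∅ ∧ T ⊆ Q ∧ T.biUnion id = K := by
  simp only [unions, mem_image, mem_erase, mem_powerset]
  constructor
  · rintro ⟨T, ⟨h1, h2⟩, h3⟩; exact ⟨T, h1, h2, h3⟩
  · rintro ⟨T, h1, h2, h3⟩; exact ⟨T, ⟨h1, h2⟩, h3⟩

/-- candidates: members of `Q` with at least a quarter of the minimal size inside `U` -/
def cand (Q : Finset (Finset V)) (s : ℕ) (U : Finset V) : Finset (Finset V) :=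
  Q.filter (fun q => s ≤ 4 * (q ∩ U).card)

theorem card_cand_le (Q : Finset (Finset V)) (s d : ℕ) (hs : 0 < s) (hd9 : 4 * d ≤ 9 * s)
    (hdeg : ∀ x, (Q.filter (fun q => x ∈ q)).card ≤ d) (U : Finset V) :
    (cand Q s U).card ≤ 9 * U.card := by
  have h1 : (cand Q s U).card * s ≤ ∑ q ∈ cand Q s U, 4 * (q ∩ U).card := by
    rw [← smul_eq_mul]
    apply Finset.card_nsmul_le_sum
    intro q hq
    exact (Finset.mem_filter.mp hq).2
  have h2 : ∑ q ∈ cand Q s U, 4 * (q ∩ U).card ≤ ∑ q ∈ Q, 4 * (q ∩ U).card :=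
    Finset.sum_le_sum_of_subset (Finset.filter_subset _ _)
  have h3 : ∑ q ∈ Q, (q ∩ U).card = ∑ x ∈ U, (Q.filter (fun q => x ∈ q)).card := by
    simp_rw [Finset.card_eq_sum_ones, Finset.sum_filter]
    rw [Finset.sum_comm]
    refine Finset.sum_congr rfl (fun q _ => ?_)
    rw [← Finset.sum_filter]
    refine Finset.sum_congr ?_ (fun _ _ => rfl)
    ext x
    simp [and_comm]
  have h4 : ∑ x ∈ U, (Q.filter (fun q => x ∈ q)).card ≤ U.card * d := by
    rw [← smul_eq_mul]
    exact Finset.sum_le_card_nsmul _ _ _ (fun x _ => hdeg x)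
  have h5 : (cand Q s U).card * s ≤ 4 * (U.card * d) := by
    calc _ ≤ _ := h1
      _ ≤ _ := h2
      _ = 4 * ∑ q ∈ Q, (q ∩ U).card := by rw [Finset.mul_sum]
      _ ≤ _ := by rw [h3]; omega
  have h6 : (cand Q s U).card * s ≤ (9 * U.card) * s := by
    calc _ ≤ 4 * (U.card * d) := h5
      _ = U.card * (4 * d) := by ring
      _ ≤ U.card * (9 * s) := Nat.mul_le_mul_left _ hd9
      _ = _ := by ring
  exact Nat.le_of_mul_le_mul_right h6 hs

/-- the encoding of a union: a subfamily `T` of large union, and few further candidates -/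
theorem exists_code (Q : Finset (Finset V)) (s s' : ℕ) (hs : 0 < s) (hs' : 4 * s' ≤ 3 * s)
    (hcard : ∀ q ∈ Q, s ≤ q.card) (K : Finset V) (hK : K ∈ unions Q) :
    ∃ T F : Finset (Finset V), T ∈ Q.powerset.erase ∅ ∧ s' * T.card ≤ (T.biUnion id).card ∧
      F ∈ (cand Q s (T.biUnion id)).powerset ∧ (T.biUnion id).card + F.card ≤ K.card ∧
      T.biUnion id ∪ F.biUnion id = K := by
  obtain ⟨T0, hT0, hT0Q, rfl⟩ := mem_unions.mp hK
  set K := T0.biUnion id with hKdef
  let R := Q.filter (fun q => q ⊆ K)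
  obtain ⟨T, hT, hmax⟩ := Finset.exists_max_image R.powerset
    (fun T => (4 * ((T.biUnion id).card : ℤ) - 3 * s * T.card)) ⟨∅, by simp⟩
  rw [Finset.mem_powerset] at hT
  have hTK : T.biUnion id ⊆ K := by
    intro x hx
    obtain ⟨q, hq, hxq⟩ := Finset.mem_biUnion.mp hx
    exact (Finset.mem_filter.mp (hT hq)).2 hxq
  have hR : ∀ q ∈ R, s ≤ 4 * (q ∩ T.biUnion id).card := by
    intro q hq
    by_cases hqT : q ∈ T
    · have : q ∩ T.biUnion id = q := by
        rw [Finset.inter_eq_left]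
        exact fun x hx => Finset.mem_biUnion.mpr ⟨q, hqT, hx⟩
      rw [this]
      have := hcard q (Finset.mem_filter.mp hq).1
      omega
    · have h1 := hmax (insert q T) (by
        rw [Finset.mem_powerset]
        exact Finset.insert_subset hq hT)
      rw [Finset.card_insert_of_notMem hqT, Finset.biUnion_insert] at h1
      have h2 : (id q ∪ T.biUnion id).card = (q \ T.biUnion id).card + (T.biUnion id).card := by
        rw [Finset.card_sdiff_add_card]; rfl
      have h3 : (q \ T.biUnion id).card + (q ∩ T.biUnion id).card = q.card :=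
        Finset.card_sdiff_add_card_inter _ _
      have h4 := hcard q (Finset.mem_filter.mp hq).1
      rw [h2] at h1
      push_cast at h1
      have h5 : 4 * ((q \ T.biUnion id).card : ℤ) ≤ 3 * s := by nlinarith
      have h6 : 4 * (q \ T.biUnion id).card ≤ 3 * s := by exact_mod_cast h5
      omega
  have hTne : T ≠ ∅ := by
    rintro rfl
    obtain ⟨q, hq⟩ := Finset.nonempty_iff_ne_empty.mpr hT0
    have hqR : q ∈ R := by
      refine Finset.mem_filter.mpr ⟨hT0Q hq, ?_⟩
      exact fun x hx => Finset.mem_biUnion.mpr ⟨q, hq, hx⟩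
    have := hR q hqR
    simp at this
    omega
  have hbig : s' * T.card ≤ (T.biUnion id).card := by
    have h1 := hmax ∅ (by simp)
    simp only [Finset.biUnion_empty, Finset.card_empty, Nat.cast_zero, mul_zero, sub_zero] at h1
    have h2 : 3 * s * T.card ≤ 4 * (T.biUnion id).card := by
      have : (3 * s * T.card : ℤ) ≤ 4 * (T.biUnion id).card := by linarith
      exact_mod_cast this
    have h3 : 4 * (s' * T.card) ≤ 4 * (T.biUnion id).card := by
      calc 4 * (s' * T.card) = (4 * s') * T.card := by ring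
        _ ≤ (3 * s) * T.card := Nat.mul_le_mul_right _ hs'
        _ ≤ _ := h2
    omega
  -- for the remaining points choose one member each
  have hex : ∀ x : V, ∃ q : Finset V, x ∈ K → q ∈ R ∧ x ∈ q := by
    intro x
    by_cases hx : x ∈ K
    · obtain ⟨q, hq, hxq⟩ := Finset.mem_biUnion.mp hx
      refine ⟨q, fun _ => ⟨Finset.mem_filter.mpr ⟨hT0Q hq, ?_⟩, hxq⟩⟩
      exact fun y hy => Finset.mem_biUnion.mpr ⟨q, hq, hy⟩
    · exact ⟨∅, fun h => absurd h hx⟩
  choose f hf using hex
  refine ⟨T, (K \ T.biUnion id).image f, ?_, hbig, ?_, ?_, ?_⟩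
  · rw [Finset.mem_erase, Finset.mem_powerset]
    exact ⟨hTne, hT.trans (Finset.filter_subset _ _)⟩
  · rw [Finset.mem_powerset]
    intro q hq
    obtain ⟨x, hx, rfl⟩ := Finset.mem_image.mp hq
    have h1 := hf x (Finset.mem_sdiff.mp hx).1
    exact Finset.mem_filter.mpr ⟨(Finset.mem_filter.mp h1.1).1, hR _ h1.1⟩
  · have h1 : ((K \ T.biUnion id).image f).card ≤ (K \ T.biUnion id).card := Finset.card_image_le
    have h2 : (K \ T.biUnion id).card + (T.biUnion id).card = K.card := by
      rw [Finset.card_sdiff_add_card, Finset.union_eq_left.mpr hTK]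
    omega
  · ext x
    constructor
    · intro hx
      rcases Finset.mem_union.mp hx with hx | hx
      · exact hTK hx
      · obtain ⟨q, hq, hxq⟩ := Finset.mem_biUnion.mp hx
        obtain ⟨y, hy, rfl⟩ := Finset.mem_image.mp hq
        have h1 := hf y (Finset.mem_sdiff.mp hy).1
        exact (Finset.mem_filter.mp h1.1).2 hxq
    · intro hx
      by_cases hxT : x ∈ T.biUnion id
      · exact Finset.mem_union_left _ hxT
      · refine Finset.mem_union_right _ (Finset.mem_biUnion.mpr ⟨f x, ?_, (hf x hx).2⟩)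
        exact Finset.mem_image.mpr ⟨x, Finset.mem_sdiff.mpr ⟨hx, hxT⟩, rfl⟩

/-- **the encoding bound** -/
theorem sum_unions_le (Q : Finset (Finset V)) (s s' d : ℕ) (hs : 0 < s) (hs' : 4 * s' ≤ 3 * s)
    (hd9 : 4 * d ≤ 9 * s) (hcard : ∀ q ∈ Q, s ≤ q.card)
    (hdeg : ∀ x, (Q.filter (fun q => x ∈ q)).card ≤ d) (l : ℝ) (hl : 0 ≤ l) (hl1 : l ≤ 1)
    (hx : l * (1 + l) ^ 9 ≤ 1) :
    ∑ K ∈ unions Q, l ^ K.card ≤ (1 + (l * (1 + l) ^ 9) ^ s') ^ Q.card - 1 := by
  classical
  have hex : ∀ K : Finset V, ∃ p : (Σ _ : Finset (Finset V), Finset (Finset V)), K ∈ unions Q →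
      p.1 ∈ (Q.powerset.erase ∅).filter (fun T => s' * T.card ≤ (T.biUnion id).card) ∧
      p.2 ∈ (cand Q s (p.1.biUnion id)).powerset ∧
      (p.1.biUnion id).card + p.2.card ≤ K.card ∧ p.1.biUnion id ∪ p.2.biUnion id = K := by
    intro K
    by_cases hK : K ∈ unions Q
    · obtain ⟨T, F, h1, h2, h3, h4, h5⟩ := exists_code Q s s' hs hs' hcard K hK
      exact ⟨⟨T, F⟩, fun _ => ⟨Finset.mem_filter.mpr ⟨h1, h2⟩, h3, h4, h5⟩⟩
    · exact ⟨⟨∅, ∅⟩, fun h => absurd h hK⟩
  choose e he using hex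
  have step1 : ∑ K ∈ unions Q, l ^ K.card ≤
      ∑ p ∈ ((Q.powerset.erase ∅).filter (fun T => s' * T.card ≤ (T.biUnion id).card)).sigma
        (fun T => (cand Q s (T.biUnion id)).powerset),
        l ^ ((p.1.biUnion id).card + p.2.card) := by
    refine sum_le_sum_inj _ _ _ _ e ?_ ?_ ?_ ?_
    · intro K hK
      rw [Finset.mem_sigma]
      exact ⟨(he K hK).1, (he K hK).2.1⟩
    · intro K hK K' hK' h
      have h1 := (he K hK).2.2.2
      have h2 := (he K' hK').2.2.2
      rw [h] at h1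
      exact h1.symm.trans h2
    · intro p _
      positivity
    · intro K hK
      exact pow_le_pow_of_le_one hl hl1 (he K hK).2.2.1
  refine step1.trans ?_
  rw [Finset.sum_sigma]
  have step2 : ∀ T ∈ (Q.powerset.erase ∅).filter (fun T => s' * T.card ≤ (T.biUnion id).card),
      ∑ F ∈ (cand Q s (T.biUnion id)).powerset, l ^ ((T.biUnion id).card + F.card) ≤
        ((l * (1 + l) ^ 9) ^ s') ^ T.card := by
    intro T hT
    have h1 : ∑ F ∈ (cand Q s (T.biUnion id)).powerset, l ^ ((T.biUnion id).card + F.card) =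
        l ^ (T.biUnion id).card * (l + 1) ^ (cand Q s (T.biUnion id)).card := by
      rw [← Finset.sum_pow_mul_eq_add_pow, Finset.mul_sum]
      refine Finset.sum_congr rfl (fun F _ => ?_)
      rw [one_pow, mul_one, pow_add]
    rw [h1]
    have h2 := card_cand_le Q s d hs hd9 hdeg (T.biUnion id)
    calc l ^ (T.biUnion id).card * (l + 1) ^ (cand Q s (T.biUnion id)).card
        ≤ l ^ (T.biUnion id).card * (l + 1) ^ (9 * (T.biUnion id).card) := by
          refine mul_le_mul_of_nonneg_left ?_ (by positivity)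
          exact pow_le_pow_right₀ (by linarith) h2
      _ = (l * (1 + l) ^ 9) ^ (T.biUnion id).card := by
          rw [mul_pow, ← pow_mul, add_comm l 1]
      _ ≤ (l * (1 + l) ^ 9) ^ (s' * T.card) :=
          pow_le_pow_of_le_one (by positivity) hx (Finset.mem_filter.mp hT).2
      _ = _ := by rw [pow_mul]
  refine (Finset.sum_le_sum step2).trans ?_
  have step3 : ∑ T ∈ (Q.powerset.erase ∅).filter (fun T => s' * T.card ≤ (T.biUnion id).card),
      ((l * (1 + l) ^ 9) ^ s') ^ T.card ≤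
      ∑ T ∈ Q.powerset.erase ∅, ((l * (1 + l) ^ 9) ^ s') ^ T.card := by
    refine Finset.sum_le_sum_of_subset_of_nonneg (Finset.filter_subset _ _) (fun T _ _ => ?_)
    positivity
  refine step3.trans (le_of_eq ?_)
  have h1 : ∑ T ∈ Q.powerset, ((l * (1 + l) ^ 9) ^ s') ^ T.card =
      (1 + (l * (1 + l) ^ 9) ^ s') ^ Q.card := by
    have h := Finset.sum_pow_mul_eq_add_pow ((l * (1 + l) ^ 9) ^ s') 1 Q
    simp only [one_pow, mul_one] at h
    rw [h, add_comm]
  have h2 := Finset.sum_erase_add Q.powerset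
    (fun T : Finset (Finset V) => ((l * (1 + l) ^ 9) ^ s') ^ T.card) (a := ∅) (by simp)
  simp only [Finset.card_empty, pow_zero] at h2
  linarith

end H38Pav
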