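import Pool.Agent.H38Pav.Encode

/-!
MP_039b14_co: the maximal cliques of the Johnson graph of `r`-subsets of `Fin n`.
-/

namespace H38Pav

open Finset

variable {n : ℕ}

/-- all sets `C ∪ {x}` -/
def lower (C : Finset (Fin n)) : Finset (Finset (Fin n)) := Cᶜ.image (fun x => insert x C)

/-- all sets `D \ {x}` -/
def upper (D : Finset (Fin n)) : Finset (Finset (Fin n)) := D.image (fun x => D.erase x)

/-- the maximal cliques of the Johnson graph -/
def cliques (n r : ℕ) : Finset (Finset (Finset (Fin n))) :=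
  (powersetCard (r - 1) univ).image lower ∪ (powersetCard (r + 1) univ).image upper

theorem mem_cliques {r : ℕ} {q : Finset (Finset (Fin n))} :
    q ∈ cliques n r ↔ (∃ C : Finset (Fin n), C.card = r - 1 ∧ lower C = q) ∨
      (∃ D : Finset (Fin n), D.card = r + 1 ∧ upper D = q) := by
  simp [cliques]

theorem mem_lower {C X : Finset (Fin n)} : X ∈ lower C ↔ ∃ x, x ∉ C ∧ insert x C = X := by
  simp [lower]

theorem mem_upper {D X : Finset (Fin n)} : X ∈ upper D ↔ ∃ x, x ∈ D ∧ D.erase x = X := by
  simp [upper]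

theorem card_lower (C : Finset (Fin n)) : (lower C).card = n - C.card := by
  unfold lower
  rw [Finset.card_image_of_injOn, Finset.card_compl, Fintype.card_fin]
  intro x hx y hy h
  have hx' : x ∉ C := by simpa using hx
  have : x ∈ insert y C := by
    have h1 : insert x C = insert y C := h
    rw [← h1]; exact Finset.mem_insert_self x C
  rcases Finset.mem_insert.mp this with h1 | h1
  · exact h1
  · exact absurd h1 hx'

theorem card_upper (D : Finset (Fin n)) : (upper D).card = D.card := by
  unfold upper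
  rw [Finset.card_image_of_injOn]
  intro x hx y hy h
  by_contra hne
  have h1 : D.erase x = D.erase y := h
  have h2 : x ∈ D.erase y := Finset.mem_erase.mpr ⟨hne, hx⟩
  rw [← h1] at h2
  exact (Finset.mem_erase.mp h2).1 rfl

theorem card_clique {r : ℕ} (hr : 1 ≤ r) (hrn : r + 1 ≤ n) {q : Finset (Finset (Fin n))}
    (hq : q ∈ cliques n r) : min (n - r) r + 1 ≤ q.card := by
  rcases mem_cliques.mp hq with ⟨C, hC, rfl⟩ | ⟨D, hD, rfl⟩
  · rw [card_lower]; omega
  · rw [card_upper]; omega

theorem deg_clique {r : ℕ} (hr : 1 ≤ r) (hrn : r + 1 ≤ n) (X : Finset (Fin n)) :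
    ((cliques n r).filter (fun q => X ∈ q)).card ≤ n := by
  by_cases hX : X.card = r
  · have h1 : (cliques n r).filter (fun q => X ∈ q) ⊆
        (X.image (fun x => lower (X.erase x))) ∪ (Xᶜ.image (fun x => upper (insert x X))) := by
      intro q hq
      obtain ⟨hq1, hq2⟩ := Finset.mem_filter.mp hq
      rcases mem_cliques.mp hq1 with ⟨C, hC, rfl⟩ | ⟨D, hD, rfl⟩
      · obtain ⟨x, hx, rfl⟩ := mem_lower.mp hq2
        refine Finset.mem_union_left _ (Finset.mem_image.mpr ⟨x, Finset.mem_insert_self x C, ?_⟩)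
        rw [Finset.erase_insert hx]
      · obtain ⟨x, hx, rfl⟩ := mem_upper.mp hq2
        refine Finset.mem_union_right _ (Finset.mem_image.mpr ⟨x, by simp, ?_⟩)
        rw [Finset.insert_erase hx]
    refine (Finset.card_le_card h1).trans ((Finset.card_union_le _ _).trans ?_)
    have h2 : (X.image (fun x => lower (X.erase x))).card ≤ r := by
      rw [← hX]; exact Finset.card_image_le
    have h3 : (Xᶜ.image (fun x => upper (insert x X))).card ≤ n - r := by
      refine Finset.card_image_le.trans ?_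
      rw [Finset.card_compl, Fintype.card_fin, hX]
    omega
  · have : (cliques n r).filter (fun q => X ∈ q) = ∅ := by
      refine Finset.filter_eq_empty_iff.mpr (fun q hq hXq => hX ?_)
      rcases mem_cliques.mp hq with ⟨C, hC, rfl⟩ | ⟨D, hD, rfl⟩
      · obtain ⟨x, hx, rfl⟩ := mem_lower.mp hXq
        rw [Finset.card_insert_of_notMem hx]; omega
      · obtain ⟨x, hx, rfl⟩ := mem_upper.mp hXq
        rw [Finset.card_erase_of_mem hx]; omega
    rw [this]; simp

theorem card_cliques_le {r : ℕ} (hr : 1 ≤ r) : (cliques n r).card ≤ 2 ^ n := by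
  refine (Finset.card_union_le _ _).trans ?_
  have h1 : ((powersetCard (r - 1) (univ : Finset (Fin n))).image lower).card ≤
      (powersetCard (r - 1) (univ : Finset (Fin n))).card := Finset.card_image_le
  have h2 : ((powersetCard (r + 1) (univ : Finset (Fin n))).image upper).card ≤
      (powersetCard (r + 1) (univ : Finset (Fin n))).card := Finset.card_image_le
  have h3 : (powersetCard (r - 1) (univ : Finset (Fin n)) ∪ powersetCard (r + 1) univ).card ≤
      2 ^ n := by
    calc _ ≤ (univ : Finset (Finset (Fin n))).card := Finset.card_le_card (Finset.subset_univ _)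
      _ = 2 ^ n := by simp
  rw [Finset.card_union_of_disjoint] at h3
  · omega
  · rw [Finset.disjoint_left]
    intro X hX hX'
    rw [Finset.mem_powersetCard] at hX hX'
    omega

/-- every member of a clique is adjacent to another one -/
theorem clique_adj {r : ℕ} (hr : 1 ≤ r) (hrn : r + 1 ≤ n) {q : Finset (Finset (Fin n))}
    (hq : q ∈ cliques n r) {X : Finset (Fin n)} (hX : X ∈ q) :
    X.card = r ∧ ∃ Y ∈ q, (X ∩ Y).card + 1 = r := by
  rcases mem_cliques.mp hq with ⟨C, hC, rfl⟩ | ⟨D, hD, rfl⟩
  · obtain ⟨x, hx, rfl⟩ := mem_lower.mp hX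
    refine ⟨by rw [Finset.card_insert_of_notMem hx]; omega, ?_⟩
    obtain ⟨y, hy, hyx⟩ : ∃ y, y ∉ C ∧ y ≠ x := by
      have h1 : (insert x C).card < (univ : Finset (Fin n)).card := by
        rw [Finset.card_insert_of_notMem hx, Finset.card_univ, Fintype.card_fin]; omega
      obtain ⟨y, _, hy⟩ := Finset.exists_mem_notMem_of_card_lt_card h1
      exact ⟨y, fun h => hy (Finset.mem_insert_of_mem h), fun h => hy (by simp [h])⟩
    refine ⟨insert y C, mem_lower.mpr ⟨y, hy, rfl⟩, ?_⟩
    have : insert x C ∩ insert y C = C := by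
      ext z
      simp only [Finset.mem_inter, Finset.mem_insert]
      constructor
      · rintro ⟨rfl | h1, h2⟩
        · rcases h2 with h2 | h2
          · exact absurd h2.symm hyx
          · exact h2
        · exact h1
      · intro h; exact ⟨Or.inr h, Or.inr h⟩
    rw [this]; omega
  · obtain ⟨x, hx, rfl⟩ := mem_upper.mp hX
    refine ⟨by rw [Finset.card_erase_of_mem hx]; omega, ?_⟩
    obtain ⟨y, hy, hyx⟩ : ∃ y, y ∈ D ∧ y ≠ x :=
      Finset.exists_mem_ne (by omega) x
    refine ⟨D.erase y, mem_upper.mpr ⟨y, hy, rfl⟩, ?_⟩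
    have : D.erase x ∩ D.erase y = (D.erase x).erase y := by
      ext z
      simp only [Finset.mem_inter, Finset.mem_erase]
      tauto
    rw [this, Finset.card_erase_of_mem (Finset.mem_erase.mpr ⟨hyx, hy⟩),
      Finset.card_erase_of_mem hx]
    omega

/-- adjacent sets and their intersection -/
theorem adj_cases {r : ℕ} {X Y : Finset (Fin n)} (hX : X.card = r) (hY : Y.card = r)
    (h : (X ∩ Y).card + 1 = r) :
    ∃ x y, x ∉ X ∩ Y ∧ y ∉ X ∩ Y ∧ x ≠ y ∧ insert x (X ∩ Y) = X ∧ insert y (X ∩ Y) = Y ∧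
      insert x (insert y (X ∩ Y)) = X ∪ Y := by
  have h1 : (X \ Y).card = 1 := by
    have := Finset.card_sdiff_add_card_inter X Y; omega
  have h2 : (Y \ X).card = 1 := by
    have := Finset.card_sdiff_add_card_inter Y X
    rw [Finset.inter_comm] at this; omega
  obtain ⟨x, hx⟩ := Finset.card_eq_one.mp h1
  obtain ⟨y, hy⟩ := Finset.card_eq_one.mp h2
  have hx' : x ∈ X \ Y := by rw [hx]; simp
  have hy' : y ∈ Y \ X := by rw [hy]; simp
  rw [Finset.mem_sdiff] at hx' hy'
  have e1 : insert x (X ∩ Y) = X := by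
    ext z
    simp only [Finset.mem_insert, Finset.mem_inter]
    constructor
    · rintro (rfl | h)
      · exact hx'.1
      · exact h.1
    · intro hz
      by_cases hzY : z ∈ Y
      · exact Or.inr ⟨hz, hzY⟩
      · left
        have : z ∈ X \ Y := Finset.mem_sdiff.mpr ⟨hz, hzY⟩
        rw [hx] at this
        simpa using this
  have e2 : insert y (X ∩ Y) = Y := by
    ext z
    simp only [Finset.mem_insert, Finset.mem_inter]
    constructor
    · rintro (rfl | h)
      · exact hy'.1
      · exact h.2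
    · intro hz
      by_cases hzX : z ∈ X
      · exact Or.inr ⟨hzX, hz⟩
      · left
        have : z ∈ Y \ X := Finset.mem_sdiff.mpr ⟨hz, hzX⟩
        rw [hy] at this
        simpa using this
  refine ⟨x, y, fun h => hx'.2 (Finset.mem_inter.mp h).2, fun h => hy'.2 (Finset.mem_inter.mp h).1,
    ?_, e1, e2, ?_⟩
  · rintro rfl; exact hx'.2 hy'.1
  · rw [e2]
    ext z
    simp only [Finset.mem_insert, Finset.mem_union]
    constructor
    · rintro (rfl | h)
      · exact Or.inl hx'.1
      · exact Or.inr h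
    · rintro (h | h)
      · rw [← e1] at h
        rcases Finset.mem_insert.mp h with h | h
        · exact Or.inl h
        · exact Or.inr (Finset.mem_inter.mp h).2
      · exact Or.inr h

/-- a large stable set (Graham and Sloane): no two members are adjacent -/
theorem exists_stable (n r : ℕ) (hn : 0 < n) (hr : 1 ≤ r) :
    ∃ S : Finset (Finset (Fin n)), (∀ X ∈ S, X.card = r) ∧
      (∀ X ∈ S, ∀ Y ∈ S, (X ∩ Y).card + 1 ≠ r) ∧ n.choose r ≤ n * S.card := by
  classical
  let f : Finset (Fin n) → ℕ := fun X => (∑ x ∈ X, (x : ℕ)) % n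
  have hmaps : ∀ X ∈ powersetCard r (univ : Finset (Fin n)), f X ∈ Finset.range n := by
    intro X _
    exact Finset.mem_range.mpr (Nat.mod_lt _ hn)
  obtain ⟨c, _, hc⟩ : ∃ c ∈ Finset.range n, n.choose r ≤
      n * ((powersetCard r (univ : Finset (Fin n))).filter (fun X => f X = c)).card := by
    by_contra hcon
    push Not at hcon
    have h1 := Finset.card_eq_sum_card_fiberwise hmaps
    rw [Finset.card_powersetCard, Finset.card_univ, Fintype.card_fin] at h1
    have h2 : n * ∑ b ∈ Finset.range n,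
        ((powersetCard r (univ : Finset (Fin n))).filter (fun X => f X = b)).card <
        ∑ b ∈ Finset.range n, n.choose r := by
      rw [Finset.mul_sum]
      exact Finset.sum_lt_sum_of_nonempty ⟨0, Finset.mem_range.mpr hn⟩ hcon
    rw [← h1, Finset.sum_const, Finset.card_range, smul_eq_mul] at h2
    exact lt_irrefl _ h2
  refine ⟨(powersetCard r (univ : Finset (Fin n))).filter (fun X => f X = c), ?_, ?_, hc⟩
  · intro X hX
    exact (Finset.mem_powersetCard.mp (Finset.mem_filter.mp hX).1).2
  · intro X hX Y hY hadj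
    obtain ⟨hX1, hX2⟩ := Finset.mem_filter.mp hX
    obtain ⟨hY1, hY2⟩ := Finset.mem_filter.mp hY
    obtain ⟨x, y, hx, hy, hxy, e1, e2, _⟩ := adj_cases (Finset.mem_powersetCard.mp hX1).2
      (Finset.mem_powersetCard.mp hY1).2 hadj
    have h1 : f X = ((x : ℕ) + ∑ z ∈ X ∩ Y, (z : ℕ)) % n := by
      simp only [f]; conv_lhs => rw [← e1]
      rw [Finset.sum_insert hx]
    have h2 : f Y = ((y : ℕ) + ∑ z ∈ X ∩ Y, (z : ℕ)) % n := by
      simp only [f]; conv_lhs => rw [← e2]
      rw [Finset.sum_insert hy]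
    have h3 : ((x : ℕ) + ∑ z ∈ X ∩ Y, (z : ℕ)) ≡ ((y : ℕ) + ∑ z ∈ X ∩ Y, (z : ℕ)) [MOD n] := by
      show _ % n = _ % n
      rw [← h1, ← h2, hX2, hY2]
    have h4 := Nat.ModEq.add_right_cancel' _ h3
    have h5 : (x : ℕ) = y := Nat.ModEq.eq_of_lt_of_lt h4 x.2 y.2
    exact hxy (Fin.ext h5)

end H38Pav
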