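import Pool.Agent.H38Pav.Asym

/-!
MP_039b14_co: minors, and matroids with a given number of nonbases.
-/

namespace H38Pav

open Finset Filter Topology

variable {n : ℕ}

/-- a matroid with an `M(G)`-minor is not paving -/
theorem not_paving_of_hasMG (M : Matroid (Fin n)) (h : HasMG M) : ¬ Paving M := by
  intro hp
  obtain ⟨N, hNM, a, b, c, hab, hac, hbc, hE, hB⟩ := h
  obtain ⟨C, D, hC, hD, hCD, rfl⟩ := hNM.exists_eq_contract_delete_disjoint
  obtain ⟨I, hI⟩ := M.exists_isBasis' C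
  -- the two coloops
  have hbase : ((M.contract C).delete D).IsBase {b, c} := (hB _).mpr rfl
  have h1 : (M.contract C).Indep {b, c} := (Matroid.delete_indep_iff.mp hbase.indep).1
  rw [hI.contract_indep_iff] at h1
  -- the loop
  have h2 : ¬ ((M.contract C).delete D).Indep {a} := by
    intro hi
    obtain ⟨B, hBB, haB⟩ := hi.exists_isBase_superset
    rw [(hB B).mp hBB] at haB
    have := haB (Set.mem_singleton a)
    rcases this with h | h
    · exact hab h
    · exact hac h
  have haE : a ∈ ((M.contract C).delete D).E := by rw [hE]; simp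
  rw [Matroid.delete_ground, Matroid.contract_ground] at haE
  have haC : a ∉ C := haE.1.2
  have haM : a ∈ M.E := haE.1.1
  have h3 : ¬ M.Indep ({a} ∪ I) := by
    intro hi
    apply h2
    rw [Matroid.delete_indep_iff, hI.contract_indep_iff]
    refine ⟨⟨hi, ?_⟩, ?_⟩
    · rw [Set.disjoint_singleton_right]; exact haC
    · rw [Set.disjoint_singleton_left]; exact haE.2
  have h4 : M.Dep ({a} ∪ I) := by
    refine ⟨h3, ?_⟩
    intro x hx
    rcases hx with hx | hx
    · rw [Set.mem_singleton_iff.mp hx]; exact haM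
    · exact hI.indep.subset_ground hx
  obtain ⟨C0, hC0, hC0c⟩ := h4.exists_isCircuit_subset
  have h5 := hp C0 hC0c
  have hIC : I ⊆ C := hI.subset
  have hbI : Disjoint ({b, c} : Set (Fin n)) I := (h1.2.mono_left hIC).symm
  have h6 : (({b, c} : Set (Fin n)) ∪ I).encard ≤ M.eRank := by
    obtain ⟨B, hBB, hs⟩ := h1.1.exists_isBase_superset
    rw [← hBB.encard_eq_eRank]
    exact Set.encard_le_encard hs
  rw [Set.encard_union_eq hbI, Set.encard_pair hbc] at h6
  have h7 : C0.encard ≤ 1 + I.encard := by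
    calc C0.encard ≤ ({a} ∪ I : Set (Fin n)).encard := Set.encard_le_encard hC0
      _ ≤ ({a} : Set (Fin n)).encard + I.encard := Set.encard_union_le _ _
      _ = 1 + I.encard := by rw [Set.encard_singleton]
  have h8 : 2 + I.encard ≤ 1 + I.encard := h6.trans (h5.trans h7)
  have hfin : I.encard = (I.ncard : ℕ∞) := (Set.toFinite I).cast_ncard_eq.symm
  rw [hfin] at h8
  have h9 : 2 + I.ncard ≤ 1 + I.ncard := by exact_mod_cast h8
  omega

theorem nonPaving_of_hasMG (c : Cls n) (h : c.HasMG) : c.NonPaving := by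
  obtain ⟨M, hM, h⟩ := h
  exact ⟨M, hM, not_paving_of_hasMG M.1 h⟩

/-! ### a given number of nonbases -/

open Classical in
theorem cnt_eq (n k : ℕ) (P : Cls n → Prop) :
    cnt n k P = (univ.filter (fun c : Cls n => c.nb = k ∧ P c)).card := by
  unfold cnt
  rw [Nat.card_eq_fintype_card, Fintype.card_subtype]

theorem nb_le (c : Cls n) : c.nb ≤ 2 ^ n := by
  rw [nb_rep]
  have := Finset.card_le_univ (NB (rep c))
  simpa using this

theorem wsum_eq_sum_cnt (n : ℕ) (l : ℝ) (P : Cls n → Prop) :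
    wsum n l P = ∑ k ∈ Finset.range (2 ^ n + 1), l ^ k * cnt n k P := by
  classical
  unfold wsum
  rw [← Finset.sum_fiberwise_of_maps_to (s := univ.filter (fun c : Cls n => P c))
    (t := Finset.range (2 ^ n + 1)) (g := fun c => c.nb)
    (fun c _ => Finset.mem_range.mpr (by have := nb_le c; omega))]
  refine Finset.sum_congr rfl (fun k _ => ?_)
  rw [cnt_eq, Finset.filter_filter]
  have h1 : ∑ c : Cls n with (P c ∧ c.nb = k), l ^ c.nb =
      ∑ c : Cls n with (P c ∧ c.nb = k), l ^ k := by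
    refine Finset.sum_congr rfl (fun c hc => ?_)
    rw [(Finset.mem_filter.mp hc).2.2]
  have h2 : (univ.filter (fun c : Cls n => P c ∧ c.nb = k)) =
      univ.filter (fun c : Cls n => c.nb = k ∧ P c) := by
    ext c; simp [and_comm]
  rw [h1, Finset.sum_const, nsmul_eq_mul, mul_comm, h2]

theorem term_le_wsum (n k : ℕ) (l : ℝ) (hl : 0 ≤ l) (P : Cls n → Prop) :
    l ^ k * cnt n k P ≤ wsum n l P := by
  classical
  by_cases hk : k ∈ Finset.range (2 ^ n + 1)
  · rw [wsum_eq_sum_cnt]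
    exact Finset.single_le_sum (f := fun k => l ^ k * (cnt n k P : ℝ))
      (fun _ _ => by positivity) hk
  · have : cnt n k P = 0 := by
      rw [cnt_eq, Finset.card_eq_zero, Finset.filter_eq_empty_iff]
      rintro c _ ⟨h, _⟩
      apply hk
      have := nb_le c
      rw [Finset.mem_range]; omega
    rw [this]
    simpa using wsum_nonneg n l hl P

theorem wsum_all_le (n : ℕ) (z : ℝ) (hz : 0 ≤ z) :
    wsum n z (fun _ => True) ≤ ((n : ℝ) + 1) * (1 + z) ^ (n.choose (n / 2)) := by
  classical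
  have h1 : wsum n z (fun _ => True) =
      ∑ r ∈ Finset.range (n + 1), ∑ c : Cls n with c.rk = r, z ^ c.nb := by
    unfold wsum
    rw [← Finset.sum_fiberwise_of_maps_to (t := Finset.range (n + 1)) (g := fun c => c.rk)
      (fun c _ => Finset.mem_range.mpr (by have := clsrk_le c; omega))]
    refine Finset.sum_congr rfl (fun r _ => ?_)
    rw [Finset.filter_filter]
    refine Finset.sum_congr ?_ (fun _ _ => rfl)
    ext c
    simp
  rw [h1]
  calc _ ≤ ∑ _r ∈ Finset.range (n + 1), (1 + z) ^ (n.choose (n / 2)) := by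
        refine Finset.sum_le_sum (fun r _ => (sum_rank_le r z hz).trans ?_)
        exact pow_le_pow_right₀ (by linarith) (Nat.choose_le_middle r n)
    _ = _ := by
        rw [Finset.sum_const, Finset.card_range, nsmul_eq_mul]; push_cast; ring

/-- the most likely number of nonbases for the weight `l` -/
theorem exists_mode (n : ℕ) (l : ℝ) : ∃ k : ℕ,
    wsum n l (fun _ => True) ≤ (2 ^ n + 1) * (l ^ k * cnt n k (fun _ => True)) := by
  obtain ⟨k, _, hk⟩ := Finset.exists_max_image (Finset.range (2 ^ n + 1))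
    (fun k => l ^ k * (cnt n k (fun _ => True) : ℝ)) ⟨0, Finset.mem_range.mpr (by positivity)⟩
  refine ⟨k, ?_⟩
  rw [wsum_eq_sum_cnt]
  calc _ ≤ ∑ _k ∈ Finset.range (2 ^ n + 1), l ^ k * (cnt n k (fun _ => True) : ℝ) :=
        Finset.sum_le_sum (fun j hj => hk j hj)
    _ = _ := by
        rw [Finset.sum_const, Finset.card_range, nsmul_eq_mul]; push_cast; ring

/-- the mode is large -/
theorem eventually_mode_large (l : ℝ) (hl : 0 < l) (hl1 : l ≤ 1) (k : ℕ → ℕ)
    (hk : ∀ n, wsum n l (fun _ => True) ≤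
      (2 ^ n + 1) * (l ^ k n * cnt n (k n) (fun _ => True))) :
    ∀ᶠ n : ℕ in atTop, Real.log (1 + l) / 4 * n.choose (n / 2) / (n * Real.log n) ≤ k n := by
  set L := Real.log (1 + l) with hL
  have hL0 : 0 < L := Real.log_pos (by linarith)
  filter_upwards [eventually_poly 4 (8 / L) 2 (by norm_num), eventually_ge_atTop 3,
    eventually_ge_atTop ⌈4 / L⌉₊] with n hpoly hn hnL
  set N : ℝ := (n.choose (n / 2) : ℝ) with hN
  have hn0 : (0 : ℝ) < n := by
    have : 0 < n := by omega
    exact_mod_cast this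
  have hlog : 0 < Real.log n := Real.log_pos (by
    have : 1 < n := by omega
    exact_mod_cast this)
  obtain ⟨a, ha1, ha2⟩ := le_wsum (n := n) l hl.le (by omega)
  have ha : N / n ≤ a := by
    rw [div_le_iff₀ hn0, hN]
    have : ((n.choose (n / 2) : ℕ) : ℝ) ≤ ((n * a : ℕ) : ℝ) := by exact_mod_cast ha1
    push_cast at this
    linarith
  -- upper bound for the number of classes with `k n` nonbases
  have hz : ((1 : ℝ) / n ^ 2) ^ k n * cnt n (k n) (fun _ => True) ≤
      ((n : ℝ) + 1) * Real.exp (N / n ^ 2) := by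
    refine (term_le_wsum n (k n) (1 / (n : ℝ) ^ 2) (by positivity) _).trans ?_
    refine (wsum_all_le n (1 / (n : ℝ) ^ 2) (by positivity)).trans ?_
    refine mul_le_mul_of_nonneg_left ?_ (by positivity)
    calc (1 + 1 / (n : ℝ) ^ 2) ^ (n.choose (n / 2)) ≤
          (Real.exp (1 / (n : ℝ) ^ 2)) ^ (n.choose (n / 2)) :=
          pow_le_pow_left₀ (by positivity) (by linarith [Real.add_one_le_exp (1 / (n : ℝ) ^ 2)]) _
      _ = Real.exp (N / n ^ 2) := by
          rw [← Real.exp_nat_mul]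
          congr 1
          ring
  have hcnt : (cnt n (k n) (fun _ => True) : ℝ) ≤
      ((n : ℝ) + 1) * Real.exp (N / n ^ 2) * Real.exp (2 * k n * Real.log n) := by
    have e1 : ((1 : ℝ) / n ^ 2) ^ k n * Real.exp (2 * k n * Real.log n) = 1 := by
      have : Real.exp (2 * k n * Real.log n) = ((n : ℝ) ^ 2) ^ k n := by
        have h1 : (n : ℝ) ^ 2 = Real.exp (2 * Real.log n) := by
          rw [mul_comm, Real.exp_mul, Real.exp_log hn0]
          norm_cast
        rw [h1, ← Real.exp_nat_mul]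
        congr 1
        ring
      rw [this, ← mul_pow]
      rw [one_div, inv_mul_cancel₀ (by positivity), one_pow]
    have h2 := mul_le_mul_of_nonneg_right hz (Real.exp_pos (2 * k n * Real.log n)).le
    calc (cnt n (k n) (fun _ => True) : ℝ)
        = (((1 : ℝ) / n ^ 2) ^ k n * Real.exp (2 * k n * Real.log n)) *
          cnt n (k n) (fun _ => True) := by rw [e1, one_mul]
      _ = ((1 : ℝ) / n ^ 2) ^ k n * cnt n (k n) (fun _ => True) *
          Real.exp (2 * k n * Real.log n) := by ring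
      _ ≤ _ := h2
  -- the prefactors
  have hpre : (n.factorial : ℝ) * (2 ^ n + 1) * ((n : ℝ) + 1) ≤ Real.exp (2 * ((n : ℝ) + 1) ^ 2) := by
    have h1 : ((n.factorial : ℝ)) * (n + 1) ≤ ((n : ℝ) + 1) ^ (n + 1) := by
      have := Nat.factorial_le_pow (n + 1)
      rw [Nat.factorial_succ] at this
      have h' : (((n + 1) * n.factorial : ℕ) : ℝ) ≤ (((n + 1) ^ (n + 1) : ℕ) : ℝ) := by
        exact_mod_cast this
      push_cast at h'
      linarith
    have h2 : (2 : ℝ) ^ n + 1 ≤ 2 ^ (n + 1) := by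
      have : (1 : ℝ) ≤ 2 ^ n := one_le_pow₀ (by norm_num)
      rw [pow_succ]; linarith
    calc (n.factorial : ℝ) * (2 ^ n + 1) * ((n : ℝ) + 1)
        = ((n.factorial : ℝ) * (n + 1)) * (2 ^ n + 1) := by ring
      _ ≤ ((n : ℝ) + 1) ^ (n + 1) * 2 ^ (n + 1) :=
          mul_le_mul h1 h2 (by positivity) (by positivity)
      _ = (2 * ((n : ℝ) + 1)) ^ (n + 1) := by rw [← mul_pow]; ring
      _ ≤ (Real.exp (2 * ((n : ℝ) + 1))) ^ (n + 1) :=
          pow_le_pow_left₀ (by positivity) (by linarith [Real.add_one_le_exp (2 * ((n : ℝ) + 1))]) _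
      _ = _ := by
          rw [← Real.exp_nat_mul]
          congr 1
          push_cast
          ring
  have hmain : (1 + l) ^ a ≤ Real.exp (2 * ((n : ℝ) + 1) ^ 2 + N / n ^ 2 +
      2 * k n * Real.log n) := by
    have hl' : l ^ k n ≤ 1 := pow_le_one₀ hl.le hl1
    have hc0 : (0 : ℝ) ≤ cnt n (k n) (fun _ => True) := by positivity
    calc (1 + l) ^ a ≤ (n.factorial : ℝ) * wsum n l (fun _ => True) := ha2
      _ ≤ (n.factorial : ℝ) * ((2 ^ n + 1) * (l ^ k n * cnt n (k n) (fun _ => True))) :=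
          mul_le_mul_of_nonneg_left (hk n) (by positivity)
      _ ≤ (n.factorial : ℝ) * ((2 ^ n + 1) * (1 * cnt n (k n) (fun _ => True))) := by
          gcongr
      _ ≤ (n.factorial : ℝ) * ((2 ^ n + 1) * (1 * (((n : ℝ) + 1) * Real.exp (N / n ^ 2) *
            Real.exp (2 * k n * Real.log n)))) := by
          gcongr
      _ = ((n.factorial : ℝ) * (2 ^ n + 1) * ((n : ℝ) + 1)) * (Real.exp (N / n ^ 2) *
            Real.exp (2 * k n * Real.log n)) := by ring
      _ ≤ Real.exp (2 * ((n : ℝ) + 1) ^ 2) * (Real.exp (N / n ^ 2) *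
            Real.exp (2 * k n * Real.log n)) :=
          mul_le_mul_of_nonneg_right hpre (by positivity)
      _ = _ := by rw [← Real.exp_add, ← Real.exp_add]; congr 1; ring
  have hmain' : (a : ℝ) * L ≤ 2 * ((n : ℝ) + 1) ^ 2 + N / n ^ 2 + 2 * k n * Real.log n := by
    have h1 : (1 + l) ^ a = Real.exp (a * L) := by
      rw [mul_comm, Real.exp_mul, hL, Real.exp_log (by linarith)]
      norm_cast
    rw [h1] at hmain
    exact Real.exp_le_exp.mp hmain
  -- error terms
  have hN2 : ((2 : ℝ)) ^ n ≤ ((n : ℝ) + 1) * N := by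
    rw [hN]; exact_mod_cast two_pow_le n
  have herr1 : 2 * ((n : ℝ) + 1) ^ 2 ≤ L / 4 * (N / n) := by
    have h1 : 8 / L * ((n : ℝ) + 1) ^ 4 ≤ ((n : ℝ) + 1) * N := hpoly.trans hN2
    have h2 : 8 / L * ((n : ℝ) + 1) ^ 3 ≤ N := by
      have h3 : ((n : ℝ) + 1) * (8 / L * ((n : ℝ) + 1) ^ 3) ≤ ((n : ℝ) + 1) * N := by
        calc _ = 8 / L * ((n : ℝ) + 1) ^ 4 := by ring
          _ ≤ _ := h1
      exact le_of_mul_le_mul_left h3 (by positivity)
    have h4 : 8 * ((n : ℝ) + 1) ^ 3 ≤ L * N := by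
      have := mul_le_mul_of_nonneg_left h2 hL0.le
      calc _ = L * (8 / L * ((n : ℝ) + 1) ^ 3) := by field_simp
        _ ≤ _ := this
    rw [← mul_div_assoc, le_div_iff₀ hn0]
    have h5 : (2 * ((n : ℝ) + 1) ^ 2) * n ≤ 2 * ((n : ℝ) + 1) ^ 3 := by nlinarith [sq_nonneg ((n : ℝ) + 1)]
    linarith
  have hNn : 0 ≤ N / n := by positivity
  have herr2 : N / n ^ 2 ≤ L / 4 * (N / n) := by
    have h1 : 4 / L ≤ n := (Nat.le_ceil _).trans (by exact_mod_cast hnL)
    have h2 : 1 / (n : ℝ) ≤ L / 4 := by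
      rw [div_le_iff₀ hn0]
      rw [div_le_iff₀ hL0] at h1
      linarith
    calc N / n ^ 2 = (1 / (n : ℝ)) * (N / n) := by field_simp
      _ ≤ _ := mul_le_mul_of_nonneg_right h2 hNn
  have h1 : N / n * L ≤ a * L := mul_le_mul_of_nonneg_right ha hL0.le
  have h2 : L / 2 * (N / n) ≤ 2 * k n * Real.log n := by linarith
  rw [div_le_iff₀ (by positivity)]
  have h3 : L / 4 * N = (L / 2 * (N / n)) * (n / 2) := by field_simp; ring
  rw [h3]
  calc (L / 2 * (N / n)) * (n / 2) ≤ (2 * k n * Real.log n) * (n / 2) :=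
        mul_le_mul_of_nonneg_right h2 (by positivity)
    _ = _ := by ring

theorem tendsto_wsum_of (l : ℝ) (hl : 0 < l) (hl1 : l ≤ 1 / 15) (P : ∀ n, Cls n → Prop)
    (hP : ∀ n c, P n c → c.NonPaving) :
    Tendsto (fun n : ℕ => wsum n l (P n) / wsum n l (fun _ => True)) atTop (𝓝 0) := by
  have hx : (2 * 1) ^ 3 * (l * (1 + l) ^ 9) < 1 := by
    have h1 : (1 + l) ^ 9 ≤ (16 / 15) ^ 9 := pow_le_pow_left₀ (by linarith) (by linarith) 9
    have h2 : l * (1 + l) ^ 9 ≤ 1 / 15 * (16 / 15) ^ 9 :=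
      mul_le_mul hl1 h1 (by positivity) (by norm_num)
    have h3 : (2 * 1 : ℝ) ^ 3 * (1 / 15 * (16 / 15) ^ 9) < 1 := by norm_num
    linarith
  have h := tendsto_ratio l 1 hl (by linarith) le_rfl hx
  simp only [one_pow, one_mul] at h
  refine squeeze_zero (fun n => ?_) (fun n => ?_) h
  · exact div_nonneg (wsum_nonneg n l hl.le _) (wsum_nonneg n l hl.le _)
  · exact div_le_div_of_nonneg_right (wsum_mono n l hl.le (hP n)) (wsum_nonneg n l hl.le _)

/-- almost all matroids with `k n` nonbases -/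
theorem tendsto_cnt_of (k : ℕ → ℕ) (hk : ∀ n, wsum n (1 / 75) (fun _ => True) ≤
      (2 ^ n + 1) * ((1 / 75) ^ k n * cnt n (k n) (fun _ => True)))
    (P : ∀ n, Cls n → Prop) (hP : ∀ n c, P n c → c.NonPaving) :
    Tendsto (fun n : ℕ => (cnt n (k n) (P n) : ℝ) / cnt n (k n) (fun _ => True))
      atTop (𝓝 0) := by
  have hx : (2 * 2) ^ 3 * ((1 / 75 : ℝ) * (1 + 1 / 75) ^ 9) < 1 := by norm_num
  have h := (tendsto_ratio (1 / 75) 2 (by norm_num) (by norm_num) (by norm_num) hx).const_mul 2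
  rw [mul_zero] at h
  refine tendsto_of_tendsto_of_tendsto_of_le_of_le' tendsto_const_nhds h
    (Eventually.of_forall (fun n => by positivity)) ?_
  filter_upwards [eventually_ge_atTop 2] with n hn
  have hW := wsum_pos (n := n) (1 / 75) (by norm_num) hn
  set W := wsum n (1 / 75) (fun _ => True) with hWdef
  set m : ℝ := (cnt n (k n) (fun _ => True) : ℝ) with hm
  set p : ℝ := (1 / 75 : ℝ) ^ k n with hp
  have hp0 : 0 < p := by positivity
  have h1 := hk n
  have hm0 : 0 < m := by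
    by_contra hcon
    have : m ≤ 0 := not_lt.mp hcon
    have h2 : p * m ≤ 0 := mul_nonpos_of_nonneg_of_nonpos hp0.le this
    have h3 : (2 ^ n + 1) * (p * m) ≤ 0 := mul_nonpos_of_nonneg_of_nonpos (by positivity) h2
    linarith
  have h4 : p * cnt n (k n) (P n) ≤ wsum n (1 / 75) Cls.NonPaving :=
    (term_le_wsum n (k n) (1 / 75) (by norm_num) (P n)).trans
      (wsum_mono n (1 / 75) (by norm_num) (hP n))
  have h5 : (2 : ℝ) ^ n + 1 ≤ 2 * 2 ^ n := by
    have : (1 : ℝ) ≤ 2 ^ n := one_le_pow₀ (by norm_num)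
    linarith
  have h6 : W ≤ 2 * 2 ^ n * (p * m) :=
    h1.trans (mul_le_mul_of_nonneg_right h5 (by positivity))
  rw [div_le_iff₀ hm0]
  have h7 : 0 ≤ wsum n (1 / 75) Cls.NonPaving := wsum_nonneg _ _ (by norm_num) _
  have h8 : p * (cnt n (k n) (P n)) * W ≤
      wsum n (1 / 75) Cls.NonPaving * (2 * 2 ^ n * (p * m)) :=
    mul_le_mul h4 h6 hW.le h7
  have h9 : (cnt n (k n) (P n) : ℝ) * W ≤ wsum n (1 / 75) Cls.NonPaving * (2 * 2 ^ n * m) := by
    have h10 : p * ((cnt n (k n) (P n)) * W) ≤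
        p * (wsum n (1 / 75) Cls.NonPaving * (2 * 2 ^ n * m)) := by
      calc _ = p * (cnt n (k n) (P n)) * W := by ring
        _ ≤ _ := h8
        _ = _ := by ring
    exact le_of_mul_le_mul_left h10 hp0
  calc (cnt n (k n) (P n) : ℝ) ≤ wsum n (1 / 75) Cls.NonPaving * (2 * 2 ^ n * m) / W := by
        rw [le_div_iff₀ hW]; exact h9
    _ = _ := by ring

end H38Pav
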