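import Pool.Agent.H38Pav.Defs
import Pool.Agent.H38Pav.Johnson

/-!
MP_039b14_co: nonbases of matroids, isolated nonbases and sparse paving matroids.
-/

namespace H38Pav

open Finset

variable {n : ℕ}

/-! ### rank and nonbases as finsets -/

noncomputable def rk (M : Mat n) : ℕ := M.1.eRank.toNat

theorem ncard_base {M : Mat n} {B : Set (Fin n)} (h : M.1.IsBase B) : B.ncard = rk M := by
  rw [Set.ncard_def, h.encard_eq_eRank, rk]

theorem cast_rk (M : Mat n) : (rk M : ℕ∞) = M.1.eRank := by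
  obtain ⟨B, hB⟩ := M.1.exists_isBase
  rw [← ncard_base hB, ← hB.encard_eq_eRank]
  exact (Set.toFinite B).cast_ncard_eq

open Classical in
/-- the set of nonbases -/
noncomputable def NB (M : Mat n) : Finset (Finset (Fin n)) :=
  univ.filter (fun X => X.card = rk M ∧ ¬ M.1.IsBase (X : Set (Fin n)))

theorem mem_NB {M : Mat n} {X : Finset (Fin n)} :
    X ∈ NB M ↔ X.card = rk M ∧ ¬ M.1.IsBase (X : Set (Fin n)) := by
  simp [NB]

theorem nonbases_eq (M : Mat n) : nonbases M.1 = (NB M).card := by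
  unfold nonbases
  have : {X : Set (Fin n) | X.encard = M.1.eRank ∧ ¬ M.1.IsBase X} =
      (fun X : Finset (Fin n) => (X : Set (Fin n))) '' (NB M : Set (Finset (Fin n))) := by
    ext X
    constructor
    · rintro ⟨h1, h2⟩
      refine ⟨(Set.toFinite X).toFinset, ?_, by simp⟩
      rw [Finset.mem_coe, mem_NB]
      refine ⟨?_, by simpa using h2⟩
      rw [← Set.ncard_eq_toFinset_card X (Set.toFinite X), Set.ncard_def, h1, rk]
    · rintro ⟨Y, hY, rfl⟩
      rw [Finset.mem_coe, mem_NB] at hY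
      refine ⟨?_, hY.2⟩
      rw [Set.encard_coe_eq_coe_finsetCard, hY.1, cast_rk]
  rw [this, Set.ncard_image_of_injective _ Finset.coe_injective, Set.ncard_coe_finset]

theorem isBase_iff {M : Mat n} {X : Finset (Fin n)} :
    M.1.IsBase (X : Set (Fin n)) ↔ X.card = rk M ∧ X ∉ NB M := by
  rw [mem_NB]
  constructor
  · intro h
    have h1 := ncard_base h
    rw [Set.ncard_coe_finset] at h1
    exact ⟨h1, fun h2 => h2.2 h⟩
  · rintro ⟨h1, h2⟩
    by_contra h3
    exact h2 ⟨h1, h3⟩

theorem mat_ext {M N : Mat n} (h1 : rk M = rk N) (h2 : NB M = NB N) : M = N := by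
  apply Subtype.ext
  refine Matroid.ext_isBase (by rw [M.2, N.2]) (fun B _ => ?_)
  have hB : ((Set.toFinite B).toFinset : Set (Fin n)) = B := Set.Finite.coe_toFinset _
  rw [← hB, isBase_iff, isBase_iff, h1, h2]

theorem rk_le (M : Mat n) : rk M ≤ n := by
  obtain ⟨B, hB⟩ := M.1.exists_isBase
  rw [← ncard_base hB]
  have := Set.ncard_le_ncard (Set.subset_univ B) (Set.toFinite _)
  simpa using this

theorem indep_isBase {M : Mat n} {X : Finset (Fin n)} (h : M.1.Indep (X : Set (Fin n)))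
    (hc : X.card = rk M) : M.1.IsBase (X : Set (Fin n)) := by
  obtain ⟨B, hB, hXB⟩ := h.exists_isBase_superset
  have h1 : (X : Set (Fin n)) = B := by
    refine Set.eq_of_subset_of_ncard_le hXB ?_ (Set.toFinite _)
    rw [ncard_base hB, Set.ncard_coe_finset, hc]
  rw [h1]; exact hB

theorem mem_NB_of_not_indep {M : Mat n} {X : Finset (Fin n)} (h : ¬ M.1.Indep (X : Set (Fin n)))
    (hc : X.card = rk M) : X ∈ NB M :=
  mem_NB.mpr ⟨hc, fun h' => h h'.indep⟩

/-- two adjacent nonbases lie in a clique of nonbases -/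
theorem exists_clique (M : Mat n) (hr : 1 ≤ rk M) {X Y : Finset (Fin n)} (hX : X ∈ NB M)
    (hY : Y ∈ NB M) (h : (X ∩ Y).card + 1 = rk M) :
    ∃ q ∈ cliques n (rk M), X ∈ q ∧ q ⊆ NB M := by
  obtain ⟨x, y, hx, hy, hxy, e1, e2, e3⟩ := adj_cases (mem_NB.mp hX).1 (mem_NB.mp hY).1 h
  by_cases hC : M.1.Indep ((X ∩ Y : Finset (Fin n)) : Set (Fin n))
  · refine ⟨upper (X ∪ Y), mem_cliques.mpr (Or.inr ⟨X ∪ Y, ?_, rfl⟩), ?_, ?_⟩
    · rw [← e3, Finset.card_insert_of_notMem, Finset.card_insert_of_notMem hy, h]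
      rw [Finset.mem_insert]
      rintro (h1 | h1)
      · exact hxy h1
      · exact hx h1
    · refine mem_upper.mpr ⟨y, by rw [← e3]; simp, ?_⟩
      rw [← e3, Finset.erase_insert_of_ne hxy, Finset.erase_insert hy, e1]
    · intro Z hZ
      obtain ⟨z, hz, rfl⟩ := mem_upper.mp hZ
      refine mem_NB.mpr ⟨?_, fun hB => ?_⟩
      · rw [Finset.card_erase_of_mem hz, ← e3, Finset.card_insert_of_notMem,
          Finset.card_insert_of_notMem hy]
        · omega
        · rw [Finset.mem_insert]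
          rintro (h1 | h1)
          · exact hxy h1
          · exact hx h1
      · have hnb : ¬ M.1.IsBase ((X ∩ Y : Finset (Fin n)) : Set (Fin n)) := by
          intro h1
          have := ncard_base h1
          rw [Set.ncard_coe_finset] at this
          omega
        obtain ⟨e, he, hind⟩ := hC.exists_insert_of_not_isBase hnb hB
        rw [← Finset.coe_insert] at hind
        have he1 : e ∈ X ∪ Y := by
          have := he.1
          rw [Finset.mem_coe] at this
          exact (Finset.mem_erase.mp this).2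
        have he2 : e ∉ X ∩ Y := by
          have := he.2
          rwa [Finset.mem_coe] at this
        rw [← e3, Finset.mem_insert, Finset.mem_insert] at he1
        rcases he1 with rfl | rfl | h1
        · rw [e1] at hind
          exact (mem_NB.mp hX).2 (indep_isBase hind (mem_NB.mp hX).1)
        · rw [e2] at hind
          exact (mem_NB.mp hY).2 (indep_isBase hind (mem_NB.mp hY).1)
        · exact he2 h1
  · refine ⟨lower (X ∩ Y), mem_cliques.mpr (Or.inl ⟨X ∩ Y, by omega, rfl⟩),
      mem_lower.mpr ⟨x, hx, e1⟩, ?_⟩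
    intro Z hZ
    obtain ⟨z, hz, rfl⟩ := mem_lower.mp hZ
    refine mem_NB_of_not_indep (fun h1 => hC (h1.subset ?_)) ?_
    · rw [Finset.coe_subset]; exact Finset.subset_insert _ _
    · rw [Finset.card_insert_of_notMem hz, h]

/-- a non-paving matroid has a clique of nonbases -/
theorem exists_clique_of_not_paving (M : Mat n) (hrn : rk M + 1 ≤ n) (h : ¬ Paving M.1) :
    ∃ q ∈ cliques n (rk M), q ⊆ NB M := by
  unfold Paving at h
  push Not at h
  obtain ⟨C, hC, hlt⟩ := h
  have hfin : ((Set.toFinite C).toFinset : Set (Fin n)) = C := Set.Finite.coe_toFinset _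
  have hcard : (Set.toFinite C).toFinset.card < rk M := by
    have h1 : ((Set.toFinite C).toFinset.card : ℕ∞) < rk M := by
      rw [cast_rk, ← Set.encard_coe_eq_coe_finsetCard, hfin]; exact hlt
    exact_mod_cast h1
  obtain ⟨D, hD1, hD2⟩ := Finset.exists_superset_card_eq (s := (Set.toFinite C).toFinset)
    (n := rk M - 1) (by omega) (by rw [Fintype.card_fin]; omega)
  refine ⟨lower D, mem_cliques.mpr (Or.inl ⟨D, hD2, rfl⟩), ?_⟩
  intro Z hZ
  obtain ⟨z, hz, rfl⟩ := mem_lower.mp hZ
  refine mem_NB_of_not_indep (fun h1 => hC.dep.not_indep (h1.subset ?_)) ?_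
  · rw [← hfin, Finset.coe_subset]
    exact hD1.trans (Finset.subset_insert _ _)
  · rw [Finset.card_insert_of_notMem hz, hD2]; omega

/-! ### isolated members -/

/-- the isolated members of a family -/
def isoP (r : ℕ) (S : Finset (Finset (Fin n))) : Finset (Finset (Fin n)) :=
  S.filter (fun X => ∀ Y ∈ S, (X ∩ Y).card + 1 ≠ r)

theorem isoP_subset (r : ℕ) (S : Finset (Finset (Fin n))) : isoP r S ⊆ S :=
  Finset.filter_subset _ _

/-- the rest is a union of cliques -/
theorem sdiff_isoP_mem (M : Mat n) (hr : 1 ≤ rk M) (hrn : rk M + 1 ≤ n)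
    (hne : (NB M \ isoP (rk M) (NB M)).Nonempty) :
    NB M \ isoP (rk M) (NB M) ∈ unions (cliques n (rk M)) := by
  classical
  have hunion : ((cliques n (rk M)).filter (fun q => q ⊆ NB M)).biUnion id =
      NB M \ isoP (rk M) (NB M) := by
    ext X
    rw [Finset.mem_biUnion, Finset.mem_sdiff]
    constructor
    · rintro ⟨q, hq, hX⟩
      obtain ⟨hq1, hq2⟩ := Finset.mem_filter.mp hq
      refine ⟨hq2 hX, fun h => ?_⟩
      obtain ⟨_, Y, hY, hXY⟩ := clique_adj hr hrn hq1 hX
      exact (Finset.mem_filter.mp h).2 Y (hq2 hY) hXY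
    · rintro ⟨h1, h2⟩
      have h3 : ∃ Y ∈ NB M, (X ∩ Y).card + 1 = rk M := by
        by_contra hcon
        push Not at hcon
        exact h2 (Finset.mem_filter.mpr ⟨h1, hcon⟩)
      obtain ⟨Y, hY, hXY⟩ := h3
      obtain ⟨q, hq, hXq, hqN⟩ := exists_clique M hr h1 hY hXY
      exact ⟨q, Finset.mem_filter.mpr ⟨hq, hqN⟩, hXq⟩
  refine mem_unions.mpr ⟨_, ?_, Finset.filter_subset _ _, hunion⟩
  intro h0
  rw [h0, Finset.biUnion_empty] at hunion
  rw [← hunion] at hne
  exact Finset.not_nonempty_empty hne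

theorem sdiff_isoP_nonempty (M : Mat n) (hr : 1 ≤ rk M) (hrn : rk M + 1 ≤ n)
    (h : ¬ Paving M.1) : (NB M \ isoP (rk M) (NB M)).Nonempty := by
  obtain ⟨q, hq, hqN⟩ := exists_clique_of_not_paving M hrn h
  have hc := card_clique hr hrn hq
  obtain ⟨X, hX⟩ : q.Nonempty := by
    rw [← Finset.card_pos]; omega
  refine ⟨X, Finset.mem_sdiff.mpr ⟨hqN hX, fun h => ?_⟩⟩
  obtain ⟨_, Y, hY, hXY⟩ := clique_adj hr hrn hq hX
  exact (Finset.mem_filter.mp h).2 Y (hqN hY) hXY

/-! ### the sparse paving matroid of a stable family -/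

theorem exchange_of_stable (r : ℕ) (S : Finset (Finset (Fin n)))
    (hst : ∀ X ∈ S, ∀ Y ∈ S, (X ∩ Y).card + 1 ≠ r) :
    Matroid.ExchangeProperty
      (fun B : Set (Fin n) => ∃ X : Finset (Fin n), (X : Set (Fin n)) = B ∧ X.card = r ∧ X ∉ S) := by
  rintro _ _ ⟨X, rfl, hX, hXS⟩ ⟨Y, rfl, hY, hYS⟩ a ha
  have haX : a ∈ X := by simpa using ha.1
  have haY : a ∉ Y := by simpa using ha.2
  have hc1 := Finset.card_sdiff_add_card_inter X Y
  have hc2 := Finset.card_sdiff_add_card_inter Y X
  rw [Finset.inter_comm] at hc2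
  have hpos : 0 < (X \ Y).card := Finset.card_pos.mpr ⟨a, Finset.mem_sdiff.mpr ⟨haX, haY⟩⟩
  have hcoe : ∀ b : Fin n, ((insert b (X.erase a) : Finset (Fin n)) : Set (Fin n)) =
      insert b ((X : Set (Fin n)) \ {a}) := by
    intro b; simp
  by_cases h1 : (Y \ X).card = 1
  · obtain ⟨b, hb⟩ := Finset.card_eq_one.mp h1
    have hb' : b ∈ Y \ X := by rw [hb]; simp
    rw [Finset.mem_sdiff] at hb'
    refine ⟨b, ⟨by simpa using hb'.1, by simpa using hb'.2⟩, Y, ?_, hY, hYS⟩
    rw [← hcoe]
    congr 1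
    have hXa : X \ Y = {a} := by
      have : (X \ Y).card = 1 := by omega
      obtain ⟨a', ha'⟩ := Finset.card_eq_one.mp this
      have : a ∈ X \ Y := Finset.mem_sdiff.mpr ⟨haX, haY⟩
      rw [ha'] at this ⊢
      rw [Finset.mem_singleton.mp this]
    symm
    refine Finset.eq_of_subset_of_card_le ?_ ?_
    · intro z hz
      rcases Finset.mem_insert.mp hz with rfl | hz
      · exact hb'.1
      · by_contra hzY
        have : z ∈ X \ Y := Finset.mem_sdiff.mpr ⟨(Finset.mem_erase.mp hz).2, hzY⟩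
        rw [hXa] at this
        exact (Finset.mem_erase.mp hz).1 (Finset.mem_singleton.mp this)
    · rw [Finset.card_insert_of_notMem (fun h => hb'.2 (Finset.mem_erase.mp h).2),
        Finset.card_erase_of_mem haX]
      omega
  · have h2 : 1 < (Y \ X).card := by omega
    obtain ⟨b, hb, b', hb', hbb⟩ := Finset.one_lt_card.mp h2
    rw [Finset.mem_sdiff] at hb hb'
    have hcard : ∀ c, c ∉ X → (insert c (X.erase a)).card = r := by
      intro c hc
      rw [Finset.card_insert_of_notMem (fun h => hc (Finset.mem_erase.mp h).2),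
        Finset.card_erase_of_mem haX]
      have : 0 < X.card := Finset.card_pos.mpr ⟨a, haX⟩
      omega
    by_cases h3 : insert b (X.erase a) ∈ S
    · refine ⟨b', ⟨by simpa using hb'.1, by simpa using hb'.2⟩, insert b' (X.erase a), hcoe _,
        hcard _ hb'.2, fun h4 => ?_⟩
      refine hst _ h3 _ h4 ?_
      have : insert b (X.erase a) ∩ insert b' (X.erase a) = X.erase a := by
        ext z
        simp only [Finset.mem_inter, Finset.mem_insert, Finset.mem_erase]
        constructor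
        · rintro ⟨rfl | h, h'⟩
          · rcases h' with h' | h'
            · exact absurd h' hbb
            · exact h'
          · exact h
        · intro h; exact ⟨Or.inr h, Or.inr h⟩
      rw [this, Finset.card_erase_of_mem haX]
      have : 0 < X.card := Finset.card_pos.mpr ⟨a, haX⟩
      omega
    · exact ⟨b, ⟨by simpa using hb.1, by simpa using hb.2⟩, insert b (X.erase a), hcoe _,
        hcard _ hb.2, h3⟩

/-- the matroid whose nonbases are the members of a stable family -/
theorem exists_SP (r : ℕ) (S : Finset (Finset (Fin n))) (hS : ∀ X ∈ S, X.card = r)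
    (hst : ∀ X ∈ S, ∀ Y ∈ S, (X ∩ Y).card + 1 ≠ r) (B0 : Finset (Fin n)) (hB0 : B0.card = r)
    (hB0S : B0 ∉ S) : ∃ M : Mat n, rk M = r ∧ NB M = S := by
  let M : Matroid (Fin n) := Matroid.ofIsBaseOfFinite (E := Set.univ) Set.finite_univ
    (fun B : Set (Fin n) => ∃ X : Finset (Fin n), (X : Set (Fin n)) = B ∧ X.card = r ∧ X ∉ S)
    ⟨B0, B0, rfl, hB0, hB0S⟩ (exchange_of_stable r S hst) (fun B _ => Set.subset_univ B)
  have hMB : ∀ B : Set (Fin n), M.IsBase B ↔
      ∃ X : Finset (Fin n), (X : Set (Fin n)) = B ∧ X.card = r ∧ X ∉ S := fun B => Iff.rfl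
  have hrk : rk (⟨M, rfl⟩ : Mat n) = r := by
    have h1 : M.IsBase (B0 : Set (Fin n)) := (hMB _).mpr ⟨B0, rfl, hB0, hB0S⟩
    rw [← ncard_base (M := ⟨M, rfl⟩) h1, Set.ncard_coe_finset, hB0]
  refine ⟨⟨M, rfl⟩, hrk, ?_⟩
  ext X
  rw [mem_NB, hrk, hMB]
  constructor
  · rintro ⟨h1, h2⟩
    by_contra h3
    exact h2 ⟨X, rfl, h1, h3⟩
  · intro h
    refine ⟨hS X h, ?_⟩
    rintro ⟨Y, hY, _, hYS⟩
    rw [Finset.coe_injective hY] at hYS
    exact hYS h

end H38Pav
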